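import Pool.Agent.X232.CU.Tame
import Pool.Agent.TH826.MH.Ring
set_option autoImplicit false

/-!
The places at infinity of the curve `λ ∏_i (x - a_i) ∏_j (y - b_j) = 1`: embeddings of its
coordinate ring in the field of Laurent series.
-/

namespace Pool.Agent.X232.CU

open Pool.Agent.TH826.MK (KQ symb unitPart Unramified)

open Pool.Agent.TH826.MH (CRing fpol fx ux eqn coe_ux)

open scoped WithZero

section hensel

variable {K : Type*} [Field K]

open PowerSeries in
theorem exists_root {m : ℕ} (c : Fin (m + 1) → K) (hc : Function.Injective c)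
    (w : PowerSeries K) (hw : constantCoeff w = 0) (i : Fin (m + 1)) :
    ∃ ξ : PowerSeries K, ∏ j, (ξ - C (c j)) = w ∧ constantCoeff ξ = c i := by
  classical
  have hH : HenselianRing (PowerSeries K) (Ideal.span {(X : PowerSeries K)}) := inferInstance
  set P : Polynomial (PowerSeries K) := ∏ j, (Polynomial.X - Polynomial.C (C (c j))) with hP
  have hmon : P.Monic := Polynomial.monic_prod_of_monic _ _ fun i _ => Polynomial.monic_X_sub_C _
  have hdeg : P.natDegree = m + 1 := by
    rw [hP, Polynomial.natDegree_prod_of_monic _ _ fun i _ => Polynomial.monic_X_sub_C _]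
    simp
  have hf : (P - Polynomial.C w).Monic := by
    refine hmon.sub_of_left ?_
    refine lt_of_le_of_lt Polynomial.degree_C_le ?_
    rw [← Polynomial.natDegree_pos_iff_degree_pos, hdeg]
    omega
  have hPev : ∀ z : PowerSeries K, P.eval z = ∏ j, (z - C (c j)) := by
    intro z
    rw [hP, Polynomial.eval_prod]
    simp
  obtain ⟨ξ, h1, h2⟩ := hH.is_henselian (P - Polynomial.C w) hf (C (c i)) (by
      rw [Polynomial.eval_sub, Polynomial.eval_C, hPev,
        Finset.prod_eq_zero (Finset.mem_univ i) (sub_self _), zero_sub,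
        Ideal.mem_span_singleton, dvd_neg, X_dvd_iff]
      exact hw) (by
      rw [Polynomial.derivative_sub, Polynomial.derivative_C, sub_zero]
      refine IsUnit.map _ ?_
      rw [PowerSeries.isUnit_iff_constantCoeff, isUnit_iff_ne_zero, hP,
        Polynomial.derivative_prod_finset, Polynomial.eval_finsetSum]
      rw [Finset.sum_eq_single i]
      · rw [Polynomial.eval_mul, Polynomial.eval_prod]
        simp only [Polynomial.derivative_X, Polynomial.derivative_C,
          sub_zero, Polynomial.eval_one, mul_one, Polynomial.eval_sub, Polynomial.eval_X,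
          Polynomial.eval_C, map_prod, map_sub, PowerSeries.constantCoeff_C]
        refine Finset.prod_ne_zero_iff.2 fun j hj => sub_ne_zero.2 fun e => ?_
        exact (Finset.mem_erase.1 hj).1 (hc e).symm
      · intro j _ hj
        rw [Polynomial.eval_mul, Polynomial.eval_prod,
          Finset.prod_eq_zero (Finset.mem_erase.2 ⟨Ne.symm hj, Finset.mem_univ i⟩) (by simp),
          zero_mul]
      · intro h
        exact absurd (Finset.mem_univ i) h)
  refine ⟨ξ, ?_, ?_⟩
  · have h3 : (P - Polynomial.C w).eval ξ = 0 := h1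
    rw [Polynomial.eval_sub, Polynomial.eval_C, hPev, sub_eq_zero] at h3
    exact h3
  · rw [Ideal.mem_span_singleton, X_dvd_iff, map_sub, constantCoeff_C, sub_eq_zero] at h2
    exact h2

/-- a power series with nonzero constant coefficient as a Laurent series -/
theorem od_coe {p : PowerSeries K} (hp : PowerSeries.constantCoeff p ≠ 0) :
    (HahnSeries.ofPowerSeries ℤ K p).order = 0 := by
  have hne : HahnSeries.ofPowerSeries ℤ K p ≠ 0 := by
    intro h
    rw [map_eq_zero_iff _ HahnSeries.ofPowerSeries_injective] at h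
    rw [h, map_zero] at hp
    exact hp rfl
  have h0 : (HahnSeries.ofPowerSeries ℤ K p).coeff 0 ≠ 0 := by
    have := HahnSeries.ofPowerSeries_apply_coeff (Γ := ℤ) p 0
    rw [Nat.cast_zero] at this
    rw [this]
    rwa [PowerSeries.coeff_zero_eq_constantCoeff_apply]
  refine le_antisymm (HahnSeries.order_le_of_coeff_ne_zero h0) ?_
  by_contra hcon
  push Not at hcon
  have h1 := HahnSeries.coeff_order_eq_zero.not.2 hne
  refine h1 ?_
  rw [HahnSeries.ofPowerSeries_apply]
  refine HahnSeries.embDomain_of_notMem_range ?_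
  rintro ⟨n, hn⟩
  have hn' : (n : ℤ) = (HahnSeries.ofPowerSeries ℤ K p).order := hn
  rw [← hn'] at hcon
  exact absurd hcon (not_lt.2 (Int.natCast_nonneg n))

end hensel

section ev

variable {K : Type*} [Field K] {n : ℕ} {r : Fin n → ℕ} {lam : K} {a : ∀ k, Fin (r k + 1) → K}
  {H : Type*} [CommRing H] (φ : K →+* H) (x : Fin n → H)

/-- the homomorphism of the coordinate ring given by a point -/
noncomputable def evH (hx : φ lam * ∏ k, ∏ i, (x k - φ (a k i)) = 1) : CRing lam a →+* H :=
  Ideal.Quotient.lift (Ideal.span {eqn lam a}) (MvPolynomial.eval₂Hom φ x) (by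
    intro p hp
    obtain ⟨q, rfl⟩ := Ideal.mem_span_singleton.1 hp
    have h : MvPolynomial.eval₂Hom φ x (eqn lam a) = 0 := by
      unfold eqn
      rw [map_sub, map_mul, map_one, map_prod]
      simp only [map_prod, map_sub, MvPolynomial.coe_eval₂Hom, MvPolynomial.eval₂_C,
        MvPolynomial.eval₂_X]
      rw [hx, sub_self]
    rw [map_mul, h, zero_mul])

theorem evH_fpol (hx : φ lam * ∏ k, ∏ i, (x k - φ (a k i)) = 1) (p : MvPolynomial (Fin n) K) :
    evH φ x hx (fpol lam a p) = MvPolynomial.eval₂Hom φ x p := Ideal.Quotient.lift_mk _ _ _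

theorem evH_fx (hx : φ lam * ∏ k, ∏ i, (x k - φ (a k i)) = 1) (k : Fin n) (c : K) :
    evH φ x hx (fx lam a k c) = x k - φ c := by
  unfold fx
  rw [evH_fpol]
  simp

theorem evH_C (hx : φ lam * ∏ k, ∏ i, (x k - φ (a k i)) = 1) (c : K) :
    evH φ x hx (fpol lam a (MvPolynomial.C c)) = φ c := by
  rw [evH_fpol]
  simp

theorem evH_X (hx : φ lam * ∏ k, ∏ i, (x k - φ (a k i)) = 1) (k : Fin n) :
    evH φ x hx (fpol lam a (MvPolynomial.X k)) = x k := by
  rw [evH_fpol]
  simp

end ev

section place

theorem prod_two {M : Type*} [CommMonoid M] (f : Fin 2 → M) (k : Fin 2) :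
    ∏ m, f m = f k * f (k + 1) := by
  fin_cases k
  · simp [Fin.prod_univ_two]
  · simp [Fin.prod_univ_two, mul_comm]

theorem ne_add_one (k : Fin 2) : k + 1 ≠ k := by
  fin_cases k <;> decide

theorem add_one_add_one (k : Fin 2) : k + 1 + 1 = k := by
  fin_cases k <;> decide

theorem eq_or (k m : Fin 2) : m = k ∨ m = k + 1 := by
  fin_cases k <;> fin_cases m <;> decide

variable {K : Type*} [Field K] {r : Fin 2 → ℕ} {lam : K} {a : ∀ k, Fin (r k + 1) → K}

/-- the Laurent series `1/t` -/
noncomputable def ti (K : Type*) [Field K] : HahnSeries ℤ K := HahnSeries.single (-1) 1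

theorem ti_eq (c : K) : ti K - HahnSeries.C c =
    ti K * HahnSeries.ofPowerSeries ℤ K (1 - PowerSeries.C c * PowerSeries.X) := by
  have h : ti K * HahnSeries.single 1 (1 : K) = 1 := by
    unfold ti
    rw [HahnSeries.single_mul_single]
    simp
  rw [map_sub, map_one, map_mul, HahnSeries.ofPowerSeries_C, HahnSeries.ofPowerSeries_X]
  linear_combination (HahnSeries.C c : HahnSeries ℤ K) * h

/-- The points of the curve with values in the Laurent series: the coordinate `x_k` is near
`a_{k,i}`, and the other coordinate is `1/t`. -/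
theorem exists_point (hl : lam ≠ 0) (ha : ∀ k, Function.Injective (a k)) (k : Fin 2)
    (i : Fin (r k + 1)) :
    ∃ ξ : PowerSeries K, PowerSeries.constantCoeff ξ = a k i ∧
      (HahnSeries.C lam : HahnSeries ℤ K) * ∏ m, ∏ j,
        ((Function.update (fun _ => ti K) k (HahnSeries.ofPowerSeries ℤ K ξ) : Fin 2 → _) m -
          HahnSeries.C (a m j)) = 1 := by
  classical
  set Q : PowerSeries K := ∏ j, (1 - PowerSeries.C (a (k + 1) j) * PowerSeries.X) with hQ
  have hQ0 : PowerSeries.constantCoeff Q = 1 := by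
    rw [hQ, map_prod]
    simp
  have hQi : Q * Q⁻¹ = 1 := PowerSeries.mul_inv_cancel Q (by rw [hQ0]; exact one_ne_zero)
  obtain ⟨ξ, h1, h2⟩ := exists_root (a k) (ha k)
    (PowerSeries.C lam⁻¹ * PowerSeries.X ^ (r (k + 1) + 1) * Q⁻¹) (by simp) i
  refine ⟨ξ, h2, ?_⟩
  rw [prod_two _ k, Function.update_self, Function.update_of_ne (ne_add_one k)]
  have e1 : ∏ j, (HahnSeries.ofPowerSeries ℤ K ξ - HahnSeries.C (a k j)) =
      HahnSeries.ofPowerSeries ℤ K (PowerSeries.C lam⁻¹ * PowerSeries.X ^ (r (k + 1) + 1) *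
        Q⁻¹) := by
    rw [← h1, map_prod]
    refine Finset.prod_congr rfl fun j _ => ?_
    rw [map_sub, HahnSeries.ofPowerSeries_C]
  have e2 : ∏ j, (ti K - HahnSeries.C (a (k + 1) j)) =
      ti K ^ (r (k + 1) + 1) * HahnSeries.ofPowerSeries ℤ K Q := by
    simp only [ti_eq]
    rw [Finset.prod_mul_distrib, hQ, map_prod]
    simp
  rw [e1, e2, map_mul, map_mul, map_pow, HahnSeries.ofPowerSeries_C, HahnSeries.ofPowerSeries_X]
  have h3 : ti K * HahnSeries.single 1 (1 : K) = 1 := by
    unfold ti
    rw [HahnSeries.single_mul_single]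
    simp
  have h4 : HahnSeries.ofPowerSeries ℤ K Q * HahnSeries.ofPowerSeries ℤ K Q⁻¹ = 1 := by
    rw [← map_mul, hQi, map_one]
  have h5 : (HahnSeries.C lam : HahnSeries ℤ K) * HahnSeries.C lam⁻¹ = 1 := by
    rw [← map_mul, mul_inv_cancel₀ hl, map_one]
  calc (HahnSeries.C lam : HahnSeries ℤ K) *
        (HahnSeries.C lam⁻¹ * HahnSeries.single 1 (1 : K) ^ (r (k + 1) + 1) *
          HahnSeries.ofPowerSeries ℤ K Q⁻¹ *
          (ti K ^ (r (k + 1) + 1) * HahnSeries.ofPowerSeries ℤ K Q)) =
      (HahnSeries.C lam * HahnSeries.C lam⁻¹) *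
        (ti K * HahnSeries.single 1 (1 : K)) ^ (r (k + 1) + 1) *
        (HahnSeries.ofPowerSeries ℤ K Q * HahnSeries.ofPowerSeries ℤ K Q⁻¹) := by ring
    _ = 1 := by rw [h3, h4, h5]; simp

/-- the power series of the coordinate `x_k` at the place -/
noncomputable def xi (hl : lam ≠ 0) (ha : ∀ k, Function.Injective (a k)) (k : Fin 2)
    (i : Fin (r k + 1)) : PowerSeries K := (exists_point hl ha k i).choose

/-- the place at infinity -/
noncomputable def pl (hl : lam ≠ 0) (ha : ∀ k, Function.Injective (a k)) (k : Fin 2)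
    (i : Fin (r k + 1)) : CRing lam a →+* HahnSeries ℤ K :=
  evH HahnSeries.C _ (exists_point hl ha k i).choose_spec.2

variable (hl : lam ≠ 0) (ha : ∀ k, Function.Injective (a k)) (k : Fin 2) (i : Fin (r k + 1))

theorem xi_const : PowerSeries.constantCoeff (xi hl ha k i) = a k i :=
  (exists_point hl ha k i).choose_spec.1

theorem pl_C (c : K) : pl hl ha k i (fpol lam a (MvPolynomial.C c)) = HahnSeries.C c :=
  evH_C _ _ _ c

theorem pl_X_self : pl hl ha k i (fpol lam a (MvPolynomial.X k)) =
    HahnSeries.ofPowerSeries ℤ K (xi hl ha k i) := by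
  unfold pl
  rw [evH_X, Function.update_self]
  rfl

theorem pl_X_other : pl hl ha k i (fpol lam a (MvPolynomial.X (k + 1))) = ti K := by
  unfold pl
  rw [evH_X, Function.update_of_ne (ne_add_one k)]

theorem ti_ne_zero : ti K ≠ 0 := by
  unfold ti
  rw [Ne, HahnSeries.single_eq_zero_iff]
  exact one_ne_zero

theorem order_ti : (ti K).order = -1 := by
  unfold ti
  exact HahnSeries.order_single one_ne_zero

/-- the order of a unit of the coordinate ring at the place -/
noncomputable def ord (f : (CRing lam a)ˣ) : ℤ :=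
  od (Units.map (pl hl ha k i : CRing lam a →* HahnSeries ℤ K) f)

theorem ord_mul (f g : (CRing lam a)ˣ) : ord hl ha k i (f * g) =
    ord hl ha k i f + ord hl ha k i g := by
  unfold ord
  rw [map_mul, od_mul]

theorem ord_other (j : Fin (r (k + 1) + 1)) : ord hl ha k i (ux lam a (k + 1) j) = -1 := by
  unfold ord od
  rw [Units.coe_map]
  show (pl hl ha k i (ux lam a (k + 1) j : CRing lam a)).order = -1
  rw [coe_ux]
  unfold fx
  rw [map_sub, map_sub, pl_X_other, pl_C, ti_eq, HahnSeries.order_mul ti_ne_zero, order_ti, od_coe]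
  · rfl
  · simp
  · rw [Ne, map_eq_zero_iff _ HahnSeries.ofPowerSeries_injective]
    intro h
    have := congrArg PowerSeries.constantCoeff h
    simp at this

theorem ord_self_ne (j : Fin (r k + 1)) (hj : j ≠ i) : ord hl ha k i (ux lam a k j) = 0 := by
  unfold ord od
  rw [Units.coe_map]
  show (pl hl ha k i (ux lam a k j : CRing lam a)).order = 0
  rw [coe_ux]
  unfold fx
  rw [map_sub, map_sub, pl_X_self, pl_C, ← HahnSeries.ofPowerSeries_C, ← map_sub, od_coe]
  rw [map_sub, xi_const, PowerSeries.constantCoeff_C, sub_ne_zero]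
  exact fun e => hj (ha k e).symm

end place

end Pool.Agent.X232.CU
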