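import Pool.Agent.X232.CU.Red
set_option autoImplicit false

/-!
The tame symbols at the places at infinity of the symbols with a constant entry.
-/

namespace Pool.Agent.X232.CU

open Pool.Agent.TH826.MK (KQ symb unitPart)

open Pool.Agent.TH826.MH (CRing fpol ent ux fx coe_ux)

section lc

variable {K : Type*} [Field K] {r : Fin 2 → ℕ} {lam : K} {a : ∀ k, Fin (r k + 1) → K}

theorem lc_coe {p : PowerSeries K} (hp : PowerSeries.constantCoeff p ≠ 0) :
    (HahnSeries.ofPowerSeries ℤ K p).leadingCoeff = PowerSeries.constantCoeff p := by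
  rw [HahnSeries.leadingCoeff_eq, od_coe hp]
  have := HahnSeries.ofPowerSeries_apply_coeff (Γ := ℤ) p 0
  rw [Nat.cast_zero] at this
  rw [this, PowerSeries.coeff_zero_eq_constantCoeff_apply]

variable (hl : lam ≠ 0) (ha : ∀ k, Function.Injective (a k)) (k : Fin 2) (i : Fin (r k + 1))

/-- the leading coefficient of a unit at the place -/
noncomputable def ldc : (CRing lam a)ˣ →* Kˣ where
  toFun f := lc (Units.map (pl hl ha k i : CRing lam a →* HahnSeries ℤ K) f)
  map_one' := by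
    rw [map_one]
    ext
    show (1 : HahnSeries ℤ K).leadingCoeff = 1
    rw [HahnSeries.leadingCoeff_one]
  map_mul' f g := by rw [map_mul, lc_mul]

theorem ldc_other (j : Fin (r (k + 1) + 1)) : ldc hl ha k i (ux lam a (k + 1) j) = 1 := by
  ext
  show (pl hl ha k i (ux lam a (k + 1) j : CRing lam a)).leadingCoeff = 1
  rw [coe_ux]
  unfold fx
  rw [map_sub, map_sub, pl_X_other, pl_C, ti_eq, HahnSeries.leadingCoeff_mul, lc_coe (by simp)]
  unfold ti
  rw [HahnSeries.leadingCoeff_of_single]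
  simp

theorem ldc_cu (c : Kˣ) : ldc hl ha k i (cu lam a c) = c := by
  ext
  show (pl hl ha k i (cu lam a c : CRing lam a)).leadingCoeff = c
  rw [coe_cu, pl_C, HahnSeries.C_apply, HahnSeries.leadingCoeff_of_single]

end lc

section tame

variable {K : Type*} [Field K] [Infinite K] {r : Fin 2 → ℕ} {lam : K}
  {a : ∀ k, Fin (r k + 1) → K} (hl : lam ≠ 0) (ha : ∀ k, Function.Injective (a k)) (k : Fin 2)
  (i : Fin (r k + 1)) (L : Type*) [Field L] [Algebra (CRing lam a) L]
  [IsFractionRing (CRing lam a) L]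

/-- the tame symbol at the place -/
noncomputable def DD : KQ L 2 →ₗ[ℚ] KQ K 1 := (tame K).comp (KQ.map 2 (plL hl ha k i L))

theorem DD_sy (f g : (CRing lam a)ˣ) :
    DD hl ha k i L (KQ.map 2 (algebraMap (CRing lam a) L) (sy f g)) =
      (ord hl ha k i f : ℚ) • s1 K (ldc hl ha k i g) -
        (ord hl ha k i g : ℚ) • s1 K (ldc hl ha k i f) := by
  unfold DD
  rw [LinearMap.comp_apply, map_sy, map_sy, tame_sy]
  have e : ∀ f : (CRing lam a)ˣ, Units.map (plL hl ha k i L : L →* HahnSeries ℤ K)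
      (Units.map (algebraMap (CRing lam a) L : CRing lam a →* L) f) =
      Units.map (pl hl ha k i : CRing lam a →* HahnSeries ℤ K) f := by
    intro f
    ext1
    exact plL_algebraMap hl ha k i L _
  rw [e, e]
  rfl

variable {L} in
theorem DD_unitPart {z : KQ L 2} (hz : z ∈ unitPart (vP hl ha k i L) 2) :
    DD hl ha k i L z = 0 := tame_unitPart (plL hl ha k i L) hz

end tame

section theta

theorem s1_ext {K : Type*} [Field K] {V : Type*} [AddCommGroup V] [Module ℚ V]
    {φ ψ : KQ K 1 →ₗ[ℚ] V} (h : ∀ c : Kˣ, φ (s1 K c) = ψ (s1 K c)) : φ = ψ := by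
  refine LinearMap.ext fun w => ?_
  have h1 : w ∈ Submodule.span ℚ (Set.range (symb : (Fin 1 → Kˣ) → _)) := by
    rw [span_symb]
    trivial
  induction h1 using Submodule.span_induction with
  | mem z hz =>
    obtain ⟨u, rfl⟩ := hz
    have e : symb u = s1 K (u 0) := by
      unfold s1
      congr 1
      funext i
      rw [Subsingleton.elim i 0]
    rw [e]
    exact h _
  | zero => rw [map_zero, map_zero]
  | add x y _ _ hx hy => rw [map_add, map_add, hx, hy]
  | smul q x _ hx => rw [map_smul, map_smul, hx]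

variable {K : Type*} [Field K] {r : Fin 2 → ℕ} {lam : K} {a : ∀ k, Fin (r k + 1) → K}
  {V : Type*} [AddCommGroup V] [Module ℚ V] (Ψ : KQ (CRing lam a) 2 →ₗ[ℚ] V)

/-- `w ↦ {w, u}` -/
noncomputable def th (u : (CRing lam a)ˣ) : KQ K 1 →ₗ[ℚ] V :=
  KQ.lift (fun c => Ψ (sy (cu lam a (c 0)) u)) (by
    intro c i x y
    have e : ∀ x : Kˣ, Function.update c i x 0 = x := by
      intro x
      rw [Subsingleton.elim i 0, Function.update_self]
    rw [e, e, e, map_mul, sy_mul_left, map_add]) (by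
    rintro c ⟨i, j, hij, -⟩
    exact absurd hij (by rw [Subsingleton.elim i j]; exact lt_irrefl _))

theorem th_s1 (u : (CRing lam a)ˣ) (c : Kˣ) : th Ψ u (s1 K c) = Ψ (sy (cu lam a c) u) := by
  unfold th s1
  rw [Pool.Agent.TH826.MK.KQ.lift_symb]

theorem th_mul (u u' : (CRing lam a)ˣ) : th Ψ (u * u') = th Ψ u + th Ψ u' :=
  s1_ext fun c => by rw [LinearMap.add_apply, th_s1, th_s1, th_s1, sy_mul_right, map_add]

theorem th_one : th Ψ (1 : (CRing lam a)ˣ) = 0 := by
  have h := th_mul Ψ (1 : (CRing lam a)ˣ) 1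
  rw [mul_one] at h
  simpa using h

theorem th_prod {ι : Type*} (s : Finset ι) (u : ι → (CRing lam a)ˣ) :
    th Ψ (∏ i ∈ s, u i) = ∑ i ∈ s, th Ψ (u i) := by
  classical
  induction s using Finset.induction_on with
  | empty => rw [Finset.prod_empty, Finset.sum_empty, th_one]
  | insert i s hi ih => rw [Finset.prod_insert hi, Finset.sum_insert hi, th_mul, ih]

theorem th_cu_mem (c' : Kˣ) (w : KQ K 1) : th Ψ (cu lam a c') w ∈ C2 Ψ := by
  have h1 : w ∈ Submodule.span ℚ (Set.range (symb : (Fin 1 → Kˣ) → _)) := by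
    rw [span_symb]
    trivial
  induction h1 using Submodule.span_induction with
  | mem z hz =>
    obtain ⟨u, rfl⟩ := hz
    have e : symb u = s1 K (u 0) := by
      unfold s1
      congr 1
      funext i
      rw [Subsingleton.elim i 0]
    rw [e, th_s1]
    exact Submodule.subset_span ⟨_, _, rfl⟩
  | zero => rw [map_zero]; exact Submodule.zero_mem _
  | add x y _ _ hx hy => rw [map_add]; exact Submodule.add_mem _ hx hy
  | smul q x _ hx => rw [map_smul]; exact Submodule.smul_mem _ _ hx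

/-- `∑ {w_i, x - a_i} + ∑ {w_j, y - b_j}` -/
noncomputable def TH : ((Fin (r 0 + 1) → KQ K 1) × (Fin (r 1 + 1) → KQ K 1)) →ₗ[ℚ] V :=
  LinearMap.coprod
    (∑ i, (th Ψ (ux lam a 0 i)).comp (LinearMap.proj i))
    (∑ j, (th Ψ (ux lam a 1 j)).comp (LinearMap.proj j))

theorem TH_apply (w0 : Fin (r 0 + 1) → KQ K 1) (w1 : Fin (r 1 + 1) → KQ K 1) :
    TH Ψ (w0, w1) = ∑ i, th Ψ (ux lam a 0 i) (w0 i) + ∑ j, th Ψ (ux lam a 1 j) (w1 j) := by
  unfold TH
  rw [LinearMap.coprod_apply]
  simp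

theorem C1_le (hl : lam ≠ 0) (ha : ∀ k, Function.Injective (a k)) :
    C1 Ψ ≤ LinearMap.range (TH Ψ) ⊔ C2 Ψ := by
  classical
  unfold C1
  rw [Submodule.span_le]
  rintro z ⟨c, f, rfl⟩
  set W := LinearMap.range (TH Ψ) ⊔ C2 Ψ with hW
  refine gen_right hl ha W _ (fun c' => ?_) (fun i => ?_) (fun j => ?_) f
  · exact (le_sup_right : C2 Ψ ≤ W) (Submodule.subset_span ⟨c, c', rfl⟩)
  · refine (le_sup_left : LinearMap.range (TH Ψ) ≤ W) ⟨(Pi.single i (s1 K c), 0), ?_⟩
    rw [TH_apply, Finset.sum_eq_single i]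
    · rw [Pi.single_eq_same, th_s1]
      simp
    · intro i' _ hi
      rw [Pi.single_eq_of_ne hi, map_zero]
    · intro h
      exact absurd (Finset.mem_univ i) h
  · refine (le_sup_left : LinearMap.range (TH Ψ) ≤ W) ⟨(0, Pi.single j (s1 K c)), ?_⟩
    have e : ∑ x, th Ψ (ux lam a 1 x) ((Pi.single j (s1 K c) : Fin (r 1 + 1) → KQ K 1) x) =
        Ψ (sy (cu lam a c) (ux lam a 1 j)) := by
      rw [Finset.sum_eq_single j]
      · rw [Pi.single_eq_same, th_s1]
      · intro i' _ hi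
        rw [Pi.single_eq_of_ne hi, map_zero]
      · intro h
        exact absurd (Finset.mem_univ j) h
    rw [TH_apply, e]
    simp

end theta

section main

variable {K : Type*} [Field K] [Infinite K] {r : Fin 2 → ℕ} {lam : K}
  {a : ∀ k, Fin (r k + 1) → K} (hl : lam ≠ 0) (ha : ∀ k, Function.Injective (a k))
  {L : Type*} [Field L] [Algebra (CRing lam a) L] [IsFractionRing (CRing lam a) L]
  {V : Type*} [AddCommGroup V] [Module ℚ V] (Ψ : KQ (CRing lam a) 2 →ₗ[ℚ] V)
  (p : V →ₗ[ℚ] KQ L 2) (hp : ∀ α, p (Ψ α) = KQ.map 2 (algebraMap (CRing lam a) L) α)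

include hp

theorem DD_th (k : Fin 2) (i : Fin (r k + 1)) (u : (CRing lam a)ˣ) (w : KQ K 1) :
    DD hl ha k i L (p (th Ψ u w)) = -((ord hl ha k i u : ℚ) • w) := by
  have h : ((DD hl ha k i L).comp p).comp (th Ψ u) =
      (-(ord hl ha k i u : ℚ)) • (LinearMap.id : KQ K 1 →ₗ[ℚ] KQ K 1) := by
    refine s1_ext fun c => ?_
    rw [LinearMap.comp_apply, LinearMap.comp_apply, th_s1, hp, DD_sy, ldc_cu, ord_cu]
    rw [LinearMap.smul_apply, LinearMap.id_apply]
    simp
  have h1 := congrArg (fun φ => φ w) h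
  simp only [LinearMap.comp_apply, LinearMap.smul_apply, LinearMap.id_apply, neg_smul] at h1
  exact h1

theorem DD_C2 (k : Fin 2) (i : Fin (r k + 1)) {z : V} (hz : z ∈ C2 Ψ) :
    DD hl ha k i L (p z) = 0 := by
  have h : C2 Ψ ≤ LinearMap.ker ((DD hl ha k i L).comp p) := by
    unfold C2
    rw [Submodule.span_le]
    rintro z ⟨c, c', rfl⟩
    show DD hl ha k i L (p (Ψ _)) = 0
    rw [hp, DD_sy, ord_cu, ord_cu]
    simp
  exact h hz

theorem DD_C0 (k : Fin 2) (i : Fin (r k + 1)) {z : V} (hz : z ∈ C0 Ψ) :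
    DD hl ha k i L (p z) = 0 := by
  have h : C0 Ψ ≤ LinearMap.ker ((DD hl ha k i L).comp p) := by
    unfold C0
    rw [Submodule.span_le]
    rintro z ⟨i1, i2, j1, j2, rfl⟩
    show DD hl ha k i L (p (Ψ _)) = 0
    rw [hp, DD_sy]
    fin_cases k
    · have h1 : ldc hl ha 0 i (ux lam a 1 j1 / ux lam a 1 j2) = 1 := by
        rw [map_div]
        have e1 : ldc hl ha 0 i (ux lam a 1 j1) = 1 := ldc_other hl ha 0 i j1
        have e2 : ldc hl ha 0 i (ux lam a 1 j2) = 1 := ldc_other hl ha 0 i j2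
        rw [e1, e2, div_one]
      have h2 : ord hl ha 0 i (ux lam a 1 j1 / ux lam a 1 j2) = 0 := by
        rw [div_eq_mul_inv, ord_mul, ord_inv, ord01, ord01]
        rfl
      show (ord hl ha 0 i _ : ℚ) • s1 K (ldc hl ha 0 i _) -
        (ord hl ha 0 i _ : ℚ) • s1 K (ldc hl ha 0 i _) = 0
      rw [h1, h2, s1_one]
      simp
    · have h1 : ldc hl ha 1 i (ux lam a 0 i1 / ux lam a 0 i2) = 1 := by
        rw [map_div]
        have e1 : ldc hl ha 1 i (ux lam a 0 i1) = 1 := ldc_other hl ha 1 i i1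
        have e2 : ldc hl ha 1 i (ux lam a 0 i2) = 1 := ldc_other hl ha 1 i i2
        rw [e1, e2, div_one]
      have h2 : ord hl ha 1 i (ux lam a 0 i1 / ux lam a 0 i2) = 0 := by
        rw [div_eq_mul_inv, ord_mul, ord_inv, ord10, ord10]
        rfl
      show (ord hl ha 1 i _ : ℚ) • s1 K (ldc hl ha 1 i _) -
        (ord hl ha 1 i _ : ℚ) • s1 K (ldc hl ha 1 i _) = 0
      rw [h1, h2, s1_one]
      simp
  exact h hz

/-- A combination of symbols with a constant entry without residues at infinity is a combination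
of symbols of constants. -/
theorem C1_mem_C2 {γ : V} (hγ : γ ∈ C1 Ψ) (hD : ∀ k i, DD hl ha k i L (p γ) = 0) : γ ∈ C2 Ψ := by
  obtain ⟨z, ⟨⟨w0, w1⟩, rfl⟩, κ, hκ, rfl⟩ := Submodule.mem_sup.1 (C1_le Ψ hl ha hγ)
  have hT : ∀ k i, DD hl ha k i L (p (TH Ψ (w0, w1))) = 0 := by
    intro k i
    have h := hD k i
    rw [map_add, map_add, DD_C2 hl ha Ψ p hp k i hκ, add_zero] at h
    exact h
  have e0 : ∀ i, ((r 1 : ℚ) + 1) • w0 i = ∑ j, w1 j := by
    intro i
    have h := hT 0 i
    rw [TH_apply, map_add, map_add, map_sum, map_sum, map_sum, map_sum] at h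
    simp only [DD_th hl ha Ψ p hp] at h
    rw [Finset.sum_eq_single i (fun i' _ hi => by rw [ord_self_ne hl ha 0 i i' hi]; simp)
      (fun h => absurd (Finset.mem_univ i) h), sum_ord0] at h
    simp only [ord01] at h
    push_cast at h
    simp only [neg_smul, one_smul, neg_neg] at h
    rw [neg_add_eq_zero] at h
    exact h
  have e1 : ∀ j, ((r 0 : ℚ) + 1) • w1 j = ∑ i, w0 i := by
    intro j
    have h := hT 1 j
    have h2 : ∑ x, -((ord hl ha 1 j (ux lam a 1 x) : ℚ) • w1 x) = -(((r 0 : ℚ) + 1) • w1 j) := by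
      rw [Finset.sum_eq_single j (fun i' _ hi => by rw [ord_self_ne hl ha 1 j i' hi]; simp)
        (fun h => absurd (Finset.mem_univ j) h), sum_ord1]
      push_cast
      rfl
    rw [TH_apply, map_add, map_add, map_sum, map_sum, map_sum, map_sum] at h
    simp only [DD_th hl ha Ψ p hp] at h
    rw [h2] at h
    simp only [ord10] at h
    push_cast at h
    simp only [neg_smul, one_smul, neg_neg] at h
    rw [add_neg_eq_zero] at h
    exact h.symm
  have hr0 : ((r 0 : ℚ) + 1) ≠ 0 := by positivity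
  have hr1 : ((r 1 : ℚ) + 1) ≠ 0 := by positivity
  set w := w0 0 with hw
  have f0 : ∀ i, w0 i = w := by
    intro i
    have h := (e0 i).trans (e0 0).symm
    have h2 := congrArg (fun z => ((r 1 : ℚ) + 1)⁻¹ • z) h
    simp only [smul_smul, inv_mul_cancel₀ hr1, one_smul] at h2
    exact h2
  have f1 : ∀ j, w1 j = w1 0 := by
    intro j
    have h := (e1 j).trans (e1 0).symm
    have h2 := congrArg (fun z => ((r 0 : ℚ) + 1)⁻¹ • z) h
    simp only [smul_smul, inv_mul_cancel₀ hr0, one_smul] at h2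
    exact h2
  have f2 : w1 0 = w := by
    have h := e0 0
    rw [Finset.sum_congr rfl fun j _ => f1 j, Finset.sum_const, Finset.card_univ,
      Fintype.card_fin, ← Nat.cast_smul_eq_nsmul ℚ] at h
    push_cast at h
    have h2 := congrArg (fun z => ((r 1 : ℚ) + 1)⁻¹ • z) h
    simp only [smul_smul, inv_mul_cancel₀ hr1, one_smul] at h2
    exact h2.symm
  have hsum : TH Ψ (w0, w1) = th Ψ (cu lam a (Units.mk0 lam hl)⁻¹) w := by
    rw [TH_apply]
    have h3 : cu lam a (Units.mk0 lam hl)⁻¹ = (∏ i, ux lam a 0 i) * ∏ j, ux lam a 1 j := by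
      rw [map_inv]
      exact inv_eq_of_mul_eq_one_right (rel hl)
    rw [h3, th_mul, th_prod, th_prod, LinearMap.add_apply, LinearMap.sum_apply,
      LinearMap.sum_apply]
    congr 1
    · exact Finset.sum_congr rfl fun i _ => by rw [f0]
    · exact Finset.sum_congr rfl fun j _ => by rw [f1, f2]
  rw [hsum]
  exact (C2 Ψ).add_mem (th_cu_mem Ψ _ w) hκ

/-- The elements whose images in the function field have no residues at infinity. -/
theorem main_mem (hA : Alt Ψ) (α : KQ (CRing lam a) 2)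
    (hα : ∀ k i, KQ.map 2 (algebraMap (CRing lam a) L) α ∈ unitPart (vP hl ha k i L) 2) :
    Ψ α ∈ C0 Ψ ⊔ C2 Ψ := by
  obtain ⟨τ, hτ, γ, hγ, h⟩ := Submodule.mem_sup.1 (all_mem hA hl ha α)
  have hD : ∀ k i, DD hl ha k i L (p γ) = 0 := by
    intro k i
    have h1 : γ = Ψ α - τ := by rw [← h]; abel
    rw [h1, map_sub, map_sub, hp, DD_unitPart hl ha k i (hα k i), DD_C0 hl ha Ψ p hp k i hτ,
      sub_zero]
  rw [← h]
  exact Submodule.add_mem_sup hτ (C1_mem_C2 hl ha Ψ p hp hγ hD)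

end main

end Pool.Agent.X232.CU
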