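import Pool.Agent.X232.CU.Final
set_option autoImplicit false

/-!
The regulator isomorphism on the cuspidal part of the integral motivic cohomology.
-/

namespace Pool.Agent.X232.CU

open Pool.Agent.TH826.MK

open Pool.Agent.TH826.MH (CRing fpol ent ux fx)

open scoped TensorProduct

section lin

theorem lin_iso {ι : Type*} [Fintype ι] [DecidableEq ι] {Q : Type*} [AddCommGroup Q] [Module ℚ Q]
    (b : ι → Q) (hli : LinearIndependent ℚ b) (hsp : ⊤ ≤ Submodule.span ℚ (Set.range b))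
    (f : Q →ₗ[ℚ] (ι → ℝ)) (hdet : (Matrix.of fun t i => f (b i) t).det ≠ 0) :
    Module.finrank ℚ Q = Fintype.card ι ∧ Function.Bijective (f.liftBaseChange ℝ) := by
  set B : Module.Basis ι ℚ Q := Module.Basis.mk hli hsp with hB
  refine ⟨Module.finrank_eq_card_basis B, ?_⟩
  set BC : Module.Basis ι ℝ (ℝ ⊗[ℚ] Q) := Algebra.TensorProduct.basis ℝ B with hBC
  have hM : LinearMap.toMatrix BC (Pi.basisFun ℝ ι) (f.liftBaseChange ℝ) =
      Matrix.of fun t i => f (b i) t := by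
    ext t i
    rw [LinearMap.toMatrix_apply, Pi.basisFun_repr, Matrix.of_apply, hBC,
      Algebra.TensorProduct.basis_apply, LinearMap.liftBaseChange_tmul, one_smul, hB,
      Module.Basis.mk_apply]
  have hu : IsUnit (LinearMap.toMatrix BC (Pi.basisFun ℝ ι) (f.liftBaseChange ℝ)).det := by
    rw [hM]
    exact isUnit_iff_ne_zero.2 hdet
  exact (LinearEquiv.ofIsUnitDet hu).bijective

theorem descend {P Q T : Type*} [AddCommGroup P] [Module ℚ P] [AddCommGroup Q] [Module ℚ Q]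
    [AddCommGroup T] [Module ℚ T] (π : P →ₗ[ℚ] Q) (hπ : Function.Surjective π) (R : P →ₗ[ℚ] T)
    (h : ∀ x, π x = 0 → R x = 0) : ∃ ρ : Q →ₗ[ℚ] T, ∀ x, ρ (π x) = R x := by
  have hker : LinearMap.ker π ≤ LinearMap.ker R := fun x hx => h x hx
  refine ⟨((LinearMap.ker π).liftQ R hker).comp
    (π.quotKerEquivOfSurjective hπ).symm.toLinearMap, fun x => ?_⟩
  have h : (π.quotKerEquivOfSurjective hπ).symm (π x) = Submodule.Quotient.mk x := by
    rw [LinearEquiv.symm_apply_eq]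
    rfl
  show (LinearMap.ker π).liftQ R hker ((π.quotKerEquivOfSurjective hπ).symm (π x)) = _
  rw [h]
  rfl

/-- the regulator isomorphism, linear algebra -/
theorem iso_abstract {ι : Type*} [Fintype ι] [DecidableEq ι] {P Q T : Type*} [AddCommGroup P]
    [Module ℚ P] [AddCommGroup Q] [Module ℚ Q] (π : P →ₗ[ℚ] Q) (hπ : Function.Surjective π)
    (ρ : Q →ₗ[ℚ] (T → ℝ)) (R : P →ₗ[ℚ] (T → ℝ)) (hρ : ∀ x, ρ (π x) = R x) (e : ι → P)
    (hi : ∀ q : ι → ℚ, π (∑ i, q i • e i) = 0 → q = 0)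
    (hs : ∀ x, ∃ q : ι → ℚ, π (x - ∑ i, q i • e i) = 0) (Γ : ι → T)
    (hdet : (Matrix.of fun t i => R (e i) (Γ t)).det ≠ 0) :
    Module.finrank ℚ Q = Fintype.card ι ∧
      Function.Bijective (((LinearMap.funLeft ℚ ℝ Γ).comp ρ).liftBaseChange ℝ) := by
  have hsum : ∀ q : ι → ℚ, ∑ i, q i • π (e i) = π (∑ i, q i • e i) := by
    intro q
    rw [map_sum]
    exact Finset.sum_congr rfl fun i _ => by rw [map_smul]
  refine lin_iso (fun i => π (e i)) ?_ ?_ _ ?_
  · rw [Fintype.linearIndependent_iff]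
    intro q hq
    rw [hsum] at hq
    exact fun i => congrFun (hi q hq) i
  · intro y _
    obtain ⟨x, rfl⟩ := hπ y
    obtain ⟨q, hq⟩ := hs x
    rw [map_sub, ← hsum, sub_eq_zero] at hq
    rw [hq]
    exact Submodule.sum_mem _ fun i _ => Submodule.smul_mem _ _ (Submodule.subset_span ⟨i, rfl⟩)
  · have e1 : (Matrix.of fun t i => ((LinearMap.funLeft ℚ ℝ Γ).comp ρ) (π (e i)) t) =
        Matrix.of fun t i => R (e i) (Γ t) := by
      ext t i
      rw [Matrix.of_apply, Matrix.of_apply, LinearMap.comp_apply, LinearMap.funLeft_apply, hρ]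
    rw [e1]
    exact hdet

end lin

section defs

variable {K : Type*} [Field K] {r : Fin 2 → ℕ} (lam : K) (a : ∀ k, Fin (r k + 1) → K)
  (L : Type*) [Field L] [Algebra (CRing lam a) L]

theorem mkPart_surj : Function.Surjective (mkPart lam a L) :=
  Submodule.mkQ_surjective ((konst lam a L).submoduleOf (Part lam a L))

theorem mkPart_eq_zero (x : Part lam a L) : mkPart lam a L x = 0 ↔ (x : KQ L 2) ∈ konst lam a L :=
  Submodule.Quotient.mk_eq_zero _

/-- the elements of `K_2(CRing) ⊗ ℚ` with unramified image -/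
noncomputable def PP : Submodule ℚ (KQ (CRing lam a) 2) :=
  (UnramifiedOver (cst lam a L) 2).comap (KQ.map 2 (algebraMap (CRing lam a) L))

theorem PP_map (x : PP lam a L) :
    KQ.map 2 (algebraMap (CRing lam a) L) x.1 ∈ UnramifiedOver (cst lam a L) 2 :=
  Submodule.mem_comap.1 x.2

/-- the projection -/
noncomputable def toPart : PP lam a L →ₗ[ℚ] Part lam a L :=
  ((KQ.map 2 (algebraMap (CRing lam a) L)).comp (PP lam a L).subtype).codRestrict _
    fun x => ⟨⟨x.1, rfl⟩, x.2⟩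

/-- the projection to the quotient -/
noncomputable def toQ : PP lam a L →ₗ[ℚ] PartMod lam a L := (mkPart lam a L).comp (toPart lam a L)

theorem toPart_surj : Function.Surjective (toPart lam a L) := by
  rintro ⟨_, ⟨⟨α, rfl⟩, hα⟩⟩
  exact ⟨⟨α, hα⟩, rfl⟩

theorem toQ_surj : Function.Surjective (toQ lam a L) :=
  (mkPart_surj lam a L).comp (toPart_surj lam a L)

theorem toQ_eq_zero (x : PP lam a L) : toQ lam a L x = 0 ↔
    KQ.map 2 (algebraMap (CRing lam a) L) x.1 ∈ konst lam a L := by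
  unfold toQ
  rw [LinearMap.comp_apply, mkPart_eq_zero]
  exact Iff.rfl

/-- all regulators over `σ` -/
noncomputable def regs (σ : K →+* ℂ) :
    KQ (CRing lam a) 2 →ₗ[ℚ] ({Γ : Torus (CRing lam a) 1 // Over σ Γ} → ℝ) :=
  LinearMap.pi fun Γ => Γ.1.reg

theorem regs_apply (σ : K →+* ℂ) (α : KQ (CRing lam a) 2)
    (Γ : {Γ : Torus (CRing lam a) 1 // Over σ Γ}) : regs lam a σ α Γ = Γ.1.reg α := rfl

end defs

section main

variable {K : Type*} [Field K] [Infinite K] {r : Fin 2 → ℕ} {lam : K}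
  {a : ∀ k, Fin (r k + 1) → K} {L : Type*} [Field L] [Algebra (CRing lam a) L]
  [IsFractionRing (CRing lam a) L] {σ : K →+* ℂ}

/-- The regulator on the quotient. -/
theorem exists_rho {δ : Fin 2 → ℝ} (hl : lam ≠ 0) (ha : ∀ k, Function.Injective (a k))
    (hδ : ∀ k, 0 < δ k) (hsep : ∀ k i j, i ≠ j → 3 * δ k ≤ ‖σ (a k i) - σ (a k j)‖)
    (hlam : 2 < ‖σ lam‖ * ∏ k, δ k ^ (r k + 1)) :
    ∃ ρ : PartMod lam a L →ₗ[ℚ] ({Γ : Torus (CRing lam a) 1 // Over σ Γ} → ℝ),
      ∀ x : PP lam a L, ρ (toQ lam a L x) = (regs lam a σ).comp (PP lam a L).subtype x := by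
  refine descend (toQ lam a L) (toQ_surj lam a L) _ fun x hx => ?_
  rw [toQ_eq_zero] at hx
  obtain ⟨q, h1, h2⟩ := im_mem (σ := σ) hl ha x.1 (PP_map lam a L x)
  have h3 : ∑ i, q i • cl lam a L i ∈ konst lam a L := by
    have h4 := (konst lam a L).sub_mem hx h1
    rwa [sub_sub_cancel] at h4
  have h5 := indep hl ha hδ hsep hlam q h3
  funext Γ
  have h6 := h2 Γ.1 Γ.2
  rw [h5] at h6
  rw [LinearMap.comp_apply, Submodule.subtype_apply, regs_apply, h6]
  simp

/-- The regulator isomorphism. -/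
theorem reg_iso {δ : Fin 2 → ℝ} (hl : lam ≠ 0) (ha : ∀ k, Function.Injective (a k))
    (hlami : IsIntegral ℤ lam) (hai : ∀ k i, IsIntegral ℤ (a k i))
    (hδ : ∀ k, 0 < δ k) (hsep : ∀ k i j, i ≠ j → 3 * δ k ≤ ‖σ (a k i) - σ (a k j)‖)
    (hlam : 2 < ‖σ lam‖ * ∏ k, δ k ^ (r k + 1)) :
    Module.finrank ℚ (PartMod lam a L) = r 0 * r 1 ∧
    ∃ ρ : PartMod lam a L →ₗ[ℚ] ({Γ : Torus (CRing lam a) 1 // Over σ Γ} → ℝ),
      (∀ x : PP lam a L, ρ (toQ lam a L x) = (regs lam a σ).comp (PP lam a L).subtype x) ∧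
      ∃ Γ : (∀ k, Fin (r k)) → {Γ : Torus (CRing lam a) 1 // Over σ Γ},
        Function.Bijective (((LinearMap.funLeft ℚ ℝ Γ).comp ρ).liftBaseChange ℝ) := by
  classical
  obtain ⟨ρ, hρ⟩ := exists_rho (L := L) hl ha hδ hsep hlam
  have hdom : IsDomain (CRing lam a) := dom hl ha
  obtain ⟨Γ, h1, -, h3⟩ := exists_loops_avoid hl ha hδ hsep hlam (one_ne_zero (α := CRing lam a))
  -- the classes
  have hun : ∀ i : (∀ k, Fin (r k)), symb (ent lam a i) ∈ PP lam a L := fun i =>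
    Submodule.mem_comap.2 (unramified_le (cst lam a L) 2 (cl_mem hlami hai i))
  have hval : ∀ q : (∀ k, Fin (r k)) → ℚ, KQ.map 2 (algebraMap (CRing lam a) L)
      (∑ i, q i • (⟨symb (ent lam a i), hun i⟩ : PP lam a L) : PP lam a L).1 =
      ∑ i, q i • cl lam a L i := by
    intro q
    rw [Submodule.coe_sum, map_sum]
    exact Finset.sum_congr rfl fun i _ => by rw [Submodule.coe_smul, map_smul]; rfl
  obtain ⟨h5, h6⟩ := iso_abstract (toQ lam a L) (toQ_surj lam a L) ρ _ hρ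
    (fun i => ⟨symb (ent lam a i), hun i⟩) (fun q hq => by
      rw [toQ_eq_zero, hval] at hq
      exact indep hl ha hδ hsep hlam q hq) (fun x => by
      obtain ⟨q, hq, -⟩ := im_mem (σ := σ) hl ha x.1 (PP_map lam a L x)
      refine ⟨q, ?_⟩
      rw [toQ_eq_zero, Submodule.coe_sub, map_sub, hval]
      exact hq) (fun t => ⟨Γ t, h1 t⟩) (by
      have e : (Matrix.of fun t i => (regs lam a σ).comp (PP lam a L).subtype
          (⟨symb (ent lam a i), hun i⟩ : PP lam a L) ⟨Γ t, h1 t⟩) =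
          Matrix.of fun t i : (∀ k, Fin (r k)) => (Γ t).reg (symb (ent lam a i)) := by
        ext t i
        rw [Matrix.of_apply, Matrix.of_apply, LinearMap.comp_apply, Submodule.subtype_apply,
          regs_apply]
      rw [e]
      exact h3)
  refine ⟨?_, ρ, hρ, fun t => ⟨Γ t, h1 t⟩, h6⟩
  rw [h5, Fintype.card_pi, Fin.prod_univ_two, Fintype.card_fin, Fintype.card_fin]

omit [Infinite K] [IsFractionRing (CRing lam a) L] in
theorem toPart_val (x : PP lam a L) :
    (toPart lam a L x : KQ L 2) = KQ.map 2 (algebraMap (CRing lam a) L) x.1 := rfl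

/-- The regulator isomorphism, if `K_2(K) ⊗ ℚ` has the image zero. -/
theorem reg_iso' {δ : Fin 2 → ℝ} (hl : lam ≠ 0) (ha : ∀ k, Function.Injective (a k))
    (hlami : IsIntegral ℤ lam) (hai : ∀ k i, IsIntegral ℤ (a k i))
    (hδ : ∀ k, 0 < δ k) (hsep : ∀ k i j, i ≠ j → 3 * δ k ≤ ‖σ (a k i) - σ (a k j)‖)
    (hlam : 2 < ‖σ lam‖ * ∏ k, δ k ^ (r k + 1)) (hk : konst lam a L = ⊥) :
    Module.finrank ℚ (Part lam a L) = r 0 * r 1 ∧
    ∃ ρ : Part lam a L →ₗ[ℚ] ({Γ : Torus (CRing lam a) 1 // Over σ Γ} → ℝ),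
      (∀ x : PP lam a L, ρ (toPart lam a L x) = (regs lam a σ).comp (PP lam a L).subtype x) ∧
      ∃ Γ : (∀ k, Fin (r k)) → {Γ : Torus (CRing lam a) 1 // Over σ Γ},
        Function.Bijective (((LinearMap.funLeft ℚ ℝ Γ).comp ρ).liftBaseChange ℝ) := by
  classical
  obtain ⟨ρ0, hρ0⟩ := exists_rho (L := L) hl ha hδ hsep hlam
  have hdom : IsDomain (CRing lam a) := dom hl ha
  obtain ⟨Γ, h1, -, h3⟩ := exists_loops_avoid hl ha hδ hsep hlam (one_ne_zero (α := CRing lam a))
  have hun : ∀ i : (∀ k, Fin (r k)), symb (ent lam a i) ∈ PP lam a L := fun i =>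
    Submodule.mem_comap.2 (unramified_le (cst lam a L) 2 (cl_mem hlami hai i))
  have hval : ∀ q : (∀ k, Fin (r k)) → ℚ, KQ.map 2 (algebraMap (CRing lam a) L)
      (∑ i, q i • (⟨symb (ent lam a i), hun i⟩ : PP lam a L) : PP lam a L).1 =
      ∑ i, q i • cl lam a L i := by
    intro q
    rw [Submodule.coe_sum, map_sum]
    exact Finset.sum_congr rfl fun i _ => by rw [Submodule.coe_smul, map_smul]; rfl
  have hz : ∀ x : PP lam a L, toPart lam a L x = 0 ↔
      KQ.map 2 (algebraMap (CRing lam a) L) x.1 ∈ konst lam a L := by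
    intro x
    rw [hk, Submodule.mem_bot, ← toPart_val, Submodule.coe_eq_zero]
  set ρ : Part lam a L →ₗ[ℚ] ({Γ : Torus (CRing lam a) 1 // Over σ Γ} → ℝ) :=
    ρ0.comp (mkPart lam a L) with hρd
  have hρ : ∀ x : PP lam a L, ρ (toPart lam a L x) =
      (regs lam a σ).comp (PP lam a L).subtype x := fun x => by
    rw [← hρ0 x]
    rfl
  obtain ⟨h5, h6⟩ := iso_abstract (toPart lam a L) (toPart_surj lam a L) ρ _ hρ
    (fun i => ⟨symb (ent lam a i), hun i⟩) (fun q hq => by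
      rw [hz, hval] at hq
      exact indep hl ha hδ hsep hlam q hq) (fun x => by
      obtain ⟨q, hq, -⟩ := im_mem (σ := σ) hl ha x.1 (PP_map lam a L x)
      refine ⟨q, ?_⟩
      rw [hz, Submodule.coe_sub, map_sub, hval]
      exact hq) (fun t => ⟨Γ t, h1 t⟩) (by
      have e : (Matrix.of fun t i => (regs lam a σ).comp (PP lam a L).subtype
          (⟨symb (ent lam a i), hun i⟩ : PP lam a L) ⟨Γ t, h1 t⟩) =
          Matrix.of fun t i : (∀ k, Fin (r k)) => (Γ t).reg (symb (ent lam a i)) := by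
        ext t i
        rw [Matrix.of_apply, Matrix.of_apply, LinearMap.comp_apply, Submodule.subtype_apply,
          regs_apply]
      rw [e]
      exact h3)
  refine ⟨?_, ρ, hρ, fun t => ⟨Γ t, h1 t⟩, h6⟩
  rw [h5, Fintype.card_pi, Fin.prod_univ_two, Fintype.card_fin, Fintype.card_fin]

/-- Integrality: unramified over the field of constants implies unramified. -/
theorem part_le (hl : lam ≠ 0) (ha : ∀ k, Function.Injective (a k)) (hlami : IsIntegral ℤ lam)
    (hai : ∀ k i, IsIntegral ℤ (a k i)) (σ : K →+* ℂ) :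
    Part lam a L ≤ Unramified L 2 ⊔ konst lam a L := by
  unfold Part
  rw [cusp_eq hl ha hlami hai σ]
  refine sup_le_sup_right ?_ _
  rw [Submodule.span_le]
  rintro _ ⟨i, rfl⟩
  exact cl_mem hlami hai i

end main

section rat

theorem kq_rat_zero (z : KQ ℚ 2) : z = 0 := by
  have h1 : z ∈ Submodule.span ℚ (Set.range (symb : (Fin 2 → ℚˣ) → _)) := by
    rw [span_symb]
    trivial
  induction h1 using Submodule.span_induction with
  | mem z hz =>
    obtain ⟨u, rfl⟩ := hz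
    rw [symb_eq_sy, rat_zero]
  | zero => rfl
  | add x y _ _ hx hy => rw [hx, hy, add_zero]
  | smul q x _ hx => rw [hx, smul_zero]

theorem konst_rat {r : Fin 2 → ℕ} (lam : ℚ) (a : ∀ k, Fin (r k + 1) → ℚ) (L : Type*) [Field L]
    [Algebra (CRing lam a) L] : konst lam a L = ⊥ := by
  rw [eq_bot_iff]
  rintro _ ⟨κ, rfl⟩
  rw [kq_rat_zero κ, map_zero]
  exact Submodule.zero_mem _

end rat

end Pool.Agent.X232.CU
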