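import Pool.Agent.TH826.MK.Torus
import Pool.Agent.TH826.MH.Ring
set_option autoImplicit false

/-!
Definitions for the cuspidal part of `K_2` of the curves `λ ∏_i (x - a_i) ∏_j (y - b_j) = 1`.
-/

namespace Pool.Agent.X232.CU

open Pool.Agent.TH826.MK

open Pool.Agent.TH826.MH (CRing fpol)

open scoped WithZero

/-- The elements of `K_n(L) ⊗ ℚ` which are unramified at all discrete valuations that are trivial on
the subfield `K`. -/
noncomputable def UnramifiedOver {K L : Type*} [Field K] [Field L] (ι : K →+* L) (n : ℕ) :
    Submodule ℚ (KQ L n) :=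
  ⨅ (v : Valuation L ℤᵐ⁰) (_ : Function.Surjective v) (_ : ∀ c : K, c ≠ 0 → v (ι c) = 1),
    unitPart v n

variable {K : Type*} [Field K] {r : Fin 2 → ℕ} (lam : K) (a : ∀ k, Fin (r k + 1) → K)
  (L : Type*) [Field L] [Algebra (CRing lam a) L]

/-- the constants in the function field -/
noncomputable def cst : K →+* L :=
  (algebraMap (CRing lam a) L).comp ((fpol lam a).comp MvPolynomial.C)

/-- The subspace of `K_2(L) ⊗ ℚ` generated by the symbols of the units of the coordinate ring. -/
noncomputable def cusp : Submodule ℚ (KQ L 2) :=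
  LinearMap.range (KQ.map 2 (algebraMap (CRing lam a) L))

/-- The image of `K_2(K) ⊗ ℚ` in `K_2(L) ⊗ ℚ`. -/
noncomputable def konst : Submodule ℚ (KQ L 2) := LinearMap.range (KQ.map 2 (cst lam a L))

/-- the loop lies in the complex points over `σ` -/
def Over {lam : K} {a : ∀ k, Fin (r k + 1) → K} (σ : K →+* ℂ) (Γ : Torus (CRing lam a) 1) : Prop :=
  ∀ θ (x : K), Γ.e θ (fpol lam a (MvPolynomial.C x)) = σ x

/-- The part of `K_2(L) ⊗ ℚ` which is generated by the symbols of the units of the coordinate ring
of the affine curve and unramified at all discrete valuations of `L` that are trivial on `K`. -/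
noncomputable def Part : Submodule ℚ (KQ L 2) :=
  cusp lam a L ⊓ UnramifiedOver (cst lam a L) 2

/-- the quotient by the image of `K_2(K) ⊗ ℚ` -/
def PartMod : Type _ := (Part lam a L) ⧸ (konst lam a L).submoduleOf (Part lam a L)

noncomputable instance : AddCommGroup (PartMod lam a L) :=
  Submodule.Quotient.addCommGroup ((konst lam a L).submoduleOf (Part lam a L))

noncomputable instance : Module ℚ (PartMod lam a L) :=
  Submodule.Quotient.module ((konst lam a L).submoduleOf (Part lam a L))

/-- the projection to the quotient -/
noncomputable def mkPart : Part lam a L →ₗ[ℚ] PartMod lam a L :=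
  Submodule.mkQ ((konst lam a L).submoduleOf (Part lam a L))

end Pool.Agent.X232.CU
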