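import Pool.Agent.X232.CU.Unit
set_option autoImplicit false

/-!
The places at infinity are injective and extend to the function field.
-/

namespace Pool.Agent.X232.CU

open Pool.Agent.TH826.MH (CRing fpol fx ux eqn coe_ux prod_eq_one isDomain_CRing)

open Polynomial

open scoped Polynomial.Bivariate WithZero

variable {K : Type*} [Field K] {r : Fin 2 → ℕ} {lam : K} {a : ∀ k, Fin (r k + 1) → K}

theorem dom [Infinite K] (hl : lam ≠ 0) (ha : ∀ k, Function.Injective (a k)) :
    IsDomain (CRing lam a) :=
  isDomain_CRing (m := 0) lam a hl ha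

/-- Every nonzero function divides a nonzero polynomial in `x_k`. -/
theorem exists_dvd [Infinite K] (hl : lam ≠ 0) (ha : ∀ k, Function.Injective (a k)) (k : Fin 2)
    {f : CRing lam a} (hf : f ≠ 0) : ∃ c : K[X], c ≠ 0 ∧ f ∣ phi lam a k c := by
  have hdom : IsDomain (CRing lam a) := dom hl ha
  let _ : Algebra K[X] (CRing lam a) := (phi lam a k).toAlgebra
  have hmap : ∀ p : K[X], algebraMap K[X] (CRing lam a) p = phi lam a k p := fun p => rfl
  have hev : ∀ P : K[X][Y], aeval (fpol lam a (MvPolynomial.X (k + 1))) P = ev lam a k P :=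
    fun P => rfl
  have hbase : ∀ p : K[X], IsAlgebraic K[X] (phi lam a k p) := fun p => by
    rw [← hmap]
    exact isAlgebraic_algebraMap p
  have hx : IsAlgebraic K[X] (fpol lam a (MvPolynomial.X (k + 1))) := by
    set B : K[X][Y] := ∏ j, (X - C (C (a (k + 1) j))) with hB
    have hBm : B.Monic := monic_prod_of_monic _ _ fun i _ => monic_X_sub_C _
    have hBd : B.natDegree = r (k + 1) + 1 := by
      rw [hB, natDegree_prod_of_monic _ _ fun i _ => monic_X_sub_C _]
      simp
    have hA0 : (C lam * ∏ i, (X - C (a k i)) : K[X]) ≠ 0 := by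
      refine mul_ne_zero (by rwa [Ne, C_eq_zero]) ?_
      exact (monic_prod_of_monic _ _ fun i _ => monic_X_sub_C _).ne_zero
    refine ⟨C (C lam * ∏ i, (X - C (a k i))) * B - 1, ?_, ?_⟩
    · intro h0
      have h1 : C (C lam * ∏ i, (X - C (a k i))) * B = 1 := sub_eq_zero.1 h0
      have h2 := congrArg natDegree h1
      rw [natDegree_C_mul hA0, hBd, natDegree_one] at h2
      omega
    · rw [hev, map_sub, map_mul, map_one, ev_C, map_mul, phi_prod, phi_C, hB, map_prod]
      have h1 : ∏ j, ev lam a k (X - C (C (a (k + 1) j))) =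
          ∏ j, fx lam a (k + 1) (a (k + 1) j) := by
        refine Finset.prod_congr rfl fun j _ => ?_
        rw [map_sub, ev_X, ev_C, phi_C]
        unfold fx
        rw [map_sub]
      have h2 := prod_eq_one lam a
      rw [prod_two _ k] at h2
      rw [h1, mul_assoc, h2, sub_self]
  have hall : IsAlgebraic K[X] f := by
    obtain ⟨P, rfl⟩ := ev_surj (lam := lam) (a := a) k f
    rw [← hev, aeval_eq_sum_range]
    refine Finset.sum_induction _ (IsAlgebraic K[X]) (fun _ _ h1 h2 => h1.add h2) isAlgebraic_zero
      fun i _ => ?_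
    rw [Algebra.smul_def]
    exact (isAlgebraic_algebraMap _).mul (hx.pow i)
  obtain ⟨c, hc, h⟩ := hall.exists_nonzero_dvd (mem_nonZeroDivisors_of_ne_zero hf)
  exact ⟨c, hc, h⟩

theorem pl_inj [Infinite K] (hl : lam ≠ 0) (ha : ∀ k, Function.Injective (a k)) (k : Fin 2)
    (i : Fin (r k + 1)) : Function.Injective (pl hl ha k i) := by
  rw [injective_iff_map_eq_zero]
  intro f hf
  by_contra hf0
  obtain ⟨c, hc, g, hg⟩ := exists_dvd hl ha (k + 1) hf0
  have h1 : pl hl ha k i (phi lam a (k + 1) c) = 0 := by rw [hg, map_mul, hf, zero_mul]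
  have h2 : phi lam a (k + 1) c = ev lam a k (c.map C) := by
    have := ev_swap (lam := lam) (a := a) k (c.map C)
    rw [Bivariate.swap_map_C, ev_C] at this
    exact this
  rw [h2] at h1
  have hlead : (c.map C : K[X][Y]).leadingCoeff = C c.leadingCoeff :=
    leadingCoeff_map_of_injective C_injective _
  have hne : ((c.map C : K[X][Y]).leadingCoeff).eval (a k i) ≠ 0 := by
    rw [hlead, eval_C]
    exact leadingCoeff_ne_zero.2 hc
  have h3 := order_ev hl ha k i _ hne
  rw [h1, HahnSeries.order_zero] at h3
  have h4 : c.natDegree = 0 := by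
    rw [natDegree_map_eq_of_injective C_injective] at h3
    omega
  rw [eq_C_of_natDegree_eq_zero h4] at h1 hc
  rw [map_C, ev_C, phi_C, pl_C] at h1
  have h5 : c.coeff 0 = 0 := HahnSeries.C_injective (by rw [h1, map_zero])
  exact hc (by rw [h5, C_0])

section frac

variable [Infinite K] (hl : lam ≠ 0) (ha : ∀ k, Function.Injective (a k)) (k : Fin 2)
  (i : Fin (r k + 1)) (L : Type*) [Field L] [Algebra (CRing lam a) L]
  [IsFractionRing (CRing lam a) L]

/-- the place on the function field -/
noncomputable def plL : L →+* HahnSeries ℤ K := IsFractionRing.lift (pl_inj hl ha k i)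

theorem plL_algebraMap (f : CRing lam a) : plL hl ha k i L (algebraMap _ L f) = pl hl ha k i f :=
  IsFractionRing.lift_algebraMap _ _

/-- the discrete valuation -/
noncomputable def vP : Valuation L ℤᵐ⁰ := (vH K).comap (plL hl ha k i L)

theorem vP_surj : Function.Surjective (vP hl ha k i L) := by
  have hx : vP hl ha k i L (algebraMap _ L (fpol lam a (MvPolynomial.X (k + 1)))) =
      WithZero.exp 1 := by
    show vH K (plL hl ha k i L _) = _
    rw [plL_algebraMap, pl_X_other, vH_apply ti_ne_zero, order_ti, neg_neg]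
  intro z
  induction z using WithZero.expRecOn with
  | zero => exact ⟨0, map_zero _⟩
  | exp n =>
    refine ⟨algebraMap _ L (fpol lam a (MvPolynomial.X (k + 1))) ^ n, ?_⟩
    rw [map_zpow₀, hx, ← WithZero.exp_zsmul, smul_eq_mul, mul_one]

/-- the valuation is trivial on the constants -/
theorem vP_const {c : K} (hc : c ≠ 0) :
    vP hl ha k i L (algebraMap _ L (fpol lam a (MvPolynomial.C c))) = 1 := by
  show vH K (plL hl ha k i L _) = _
  rw [plL_algebraMap, pl_C, vH_apply (by rwa [Ne, map_eq_zero_iff _ HahnSeries.C_injective]),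
    HahnSeries.order_C, neg_zero, WithZero.exp_zero]

end frac

end Pool.Agent.X232.CU
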