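import Pool.Agent.TH826.MK.Milnor
set_option autoImplicit false

/-!
Symbols `{a, b}` in the rational Milnor K-group `K_2 ⊗ ℚ` of a ring and of a field.
-/

namespace Pool.Agent.X232.CU

open Pool.Agent.TH826.MK (KQ symb)

section ring

variable {A : Type*} [CommRing A]

/-- the symbol `{a, b}` -/
noncomputable def sy (a b : Aˣ) : KQ A 2 := symb ![a, b]

theorem upd_zero (a b x : Aˣ) : Function.update (![a, b] : Fin 2 → Aˣ) 0 x = ![x, b] := by
  funext i
  fin_cases i <;> simp [Function.update]

theorem upd_one (a b x : Aˣ) : Function.update (![a, b] : Fin 2 → Aˣ) 1 x = ![a, x] := by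
  funext i
  fin_cases i <;> simp [Function.update]

theorem sy_mul_left (a a' b : Aˣ) : sy (a * a') b = sy a b + sy a' b := by
  have h := Pool.Agent.TH826.MK.symb_update_mul (![a, b] : Fin 2 → Aˣ) 0 a a'
  rwa [upd_zero, upd_zero, upd_zero] at h

theorem sy_mul_right (a b b' : Aˣ) : sy a (b * b') = sy a b + sy a b' := by
  have h := Pool.Agent.TH826.MK.symb_update_mul (![a, b] : Fin 2 → Aˣ) 1 b b'
  rwa [upd_one, upd_one, upd_one] at h

theorem sy_zpow_left (a b : Aˣ) (k : ℤ) : sy (a ^ k) b = (k : ℚ) • sy a b := by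
  have h := Pool.Agent.TH826.MK.symb_update_zpow (![a, b] : Fin 2 → Aˣ) 0 a k
  rwa [upd_zero, upd_zero] at h

theorem sy_zpow_right (a b : Aˣ) (k : ℤ) : sy a (b ^ k) = (k : ℚ) • sy a b := by
  have h := Pool.Agent.TH826.MK.symb_update_zpow (![a, b] : Fin 2 → Aˣ) 1 b k
  rwa [upd_one, upd_one] at h

theorem sy_one_left (b : Aˣ) : sy 1 b = 0 := by
  have h := sy_mul_left 1 1 b
  rw [mul_one] at h
  simpa using h

theorem sy_one_right (a : Aˣ) : sy a 1 = 0 := by
  have h := sy_mul_right a 1 1
  rw [mul_one] at h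
  simpa using h

theorem sy_inv_left (a b : Aˣ) : sy a⁻¹ b = -sy a b := by
  have h := sy_zpow_left a b (-1)
  simpa using h

theorem sy_inv_right (a b : Aˣ) : sy a b⁻¹ = -sy a b := by
  have h := sy_zpow_right a b (-1)
  simpa using h

theorem sy_div_left (a a' b : Aˣ) : sy (a / a') b = sy a b - sy a' b := by
  rw [div_eq_mul_inv, sy_mul_left, sy_inv_left, sub_eq_add_neg]

theorem sy_div_right (a b b' : Aˣ) : sy a (b / b') = sy a b - sy a b' := by
  rw [div_eq_mul_inv, sy_mul_right, sy_inv_right, sub_eq_add_neg]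

theorem sy_prod_left {ι : Type*} (s : Finset ι) (f : ι → Aˣ) (b : Aˣ) :
    sy (∏ i ∈ s, f i) b = ∑ i ∈ s, sy (f i) b := by
  classical
  induction s using Finset.induction_on with
  | empty => rw [Finset.prod_empty, Finset.sum_empty, sy_one_left]
  | insert i s hi ih => rw [Finset.prod_insert hi, Finset.sum_insert hi, sy_mul_left, ih]

theorem sy_prod_right {ι : Type*} (s : Finset ι) (a : Aˣ) (f : ι → Aˣ) :
    sy a (∏ i ∈ s, f i) = ∑ i ∈ s, sy a (f i) := by
  classical
  induction s using Finset.induction_on with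
  | empty => rw [Finset.prod_empty, Finset.sum_empty, sy_one_right]
  | insert i s hi ih => rw [Finset.prod_insert hi, Finset.sum_insert hi, sy_mul_right, ih]

theorem sy_steinberg {a b : Aˣ} (h : (a : A) + b = 1) : sy a b = 0 :=
  Pool.Agent.TH826.MK.symb_eq_zero _ ⟨0, 1, by norm_num, by simpa using h⟩

/-- an entry whose power is one -/
theorem sy_torsion_left {a : Aˣ} {m : ℕ} (hm : m ≠ 0) (h : a ^ m = 1) (b : Aˣ) : sy a b = 0 := by
  have h1 := sy_zpow_left a b m
  rw [zpow_natCast, h, sy_one_left] at h1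
  have h2 : ((m : ℤ) : ℚ) ≠ 0 := by exact_mod_cast hm
  exact (smul_eq_zero.1 h1.symm).resolve_left h2

theorem sy_torsion_right {b : Aˣ} {m : ℕ} (hm : m ≠ 0) (h : b ^ m = 1) (a : Aˣ) : sy a b = 0 := by
  have h1 := sy_zpow_right a b m
  rw [zpow_natCast, h, sy_one_right] at h1
  have h2 : ((m : ℤ) : ℚ) ≠ 0 := by exact_mod_cast hm
  exact (smul_eq_zero.1 h1.symm).resolve_left h2

theorem sy_neg_left (a b : Aˣ) : sy (-a) b = sy a b := by
  rw [← neg_one_mul a, sy_mul_left, sy_torsion_left two_ne_zero (by simp), zero_add]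

theorem sy_neg_right (a b : Aˣ) : sy a (-b) = sy a b := by
  rw [← neg_one_mul b, sy_mul_right, sy_torsion_right two_ne_zero (by simp), zero_add]

/-- every element is a combination of symbols -/
theorem fin_two_eta (a : Fin 2 → Aˣ) : a = ![a 0, a 1] := by
  funext i
  fin_cases i <;> rfl

theorem symb_eq_sy (a : Fin 2 → Aˣ) : symb a = sy (a 0) (a 1) := by
  unfold sy
  rw [← fin_two_eta a]

theorem span_symb (n : ℕ) : Submodule.span ℚ (Set.range (symb : (Fin n → Aˣ) → KQ A n)) = ⊤ := by
  rw [eq_top_iff]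
  intro z _
  obtain ⟨w, rfl⟩ := Submodule.Quotient.mk_surjective _ z
  show Pool.Agent.TH826.MK.KQ.mkQ w ∈ _
  induction w using Finsupp.induction_linear with
  | zero => rw [map_zero]; exact Submodule.zero_mem _
  | add f g hf hg => rw [map_add]; exact Submodule.add_mem _ (hf trivial) (hg trivial)
  | single a q =>
    have e : (Finsupp.single a q : (Fin n → Aˣ) →₀ ℚ) = q • Finsupp.single a 1 := by simp
    rw [e, map_smul]
    exact Submodule.smul_mem _ _ (Submodule.subset_span ⟨a, rfl⟩)

variable {B : Type*} [CommRing B]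

theorem map_sy (f : A →+* B) (a b : Aˣ) :
    KQ.map 2 f (sy a b) = sy (Units.map (f : A →* B) a) (Units.map (f : A →* B) b) := by
  unfold sy
  rw [Pool.Agent.TH826.MK.KQ.map_symb]
  congr 1
  funext i
  fin_cases i <;> rfl

end ring

section field

variable {L : Type*} [Field L]

theorem sy_self_neg (a : Lˣ) : sy a (-a) = 0 := by
  by_cases h : (a : L) = 1
  · have : a = 1 := Units.ext h
    rw [this, sy_one_left]
  · have h1 : (1 : L) - a ≠ 0 := sub_ne_zero.2 (Ne.symm h)
    have h2 : (1 : L) - (a : L)⁻¹ ≠ 0 := by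
      rw [sub_ne_zero]
      intro e
      exact h (inv_eq_one.1 e.symm)
    have e1 : -a = Units.mk0 _ h1 / Units.mk0 _ h2 := by
      rw [eq_div_iff_mul_eq']
      ext
      rw [Units.val_mul, Units.val_neg, Units.val_mk0, Units.val_mk0]
      have := a.ne_zero
      field_simp
      ring
    have e2 : sy a (Units.mk0 _ h1) = 0 := by
      refine sy_steinberg ?_
      rw [Units.val_mk0]
      ring
    have e3 : sy a⁻¹ (Units.mk0 _ h2) = 0 := by
      refine sy_steinberg ?_
      rw [Units.val_mk0, Units.val_inv_eq_inv_val]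
      ring
    rw [e1, sy_div_right, e2, zero_sub, neg_eq_zero]
    rw [sy_inv_left, neg_eq_zero] at e3
    exact e3

theorem sy_self (a : Lˣ) : sy a a = 0 := by
  have h := sy_self_neg a
  rwa [sy_neg_right] at h

end field

end Pool.Agent.X232.CU
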