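import Pool.Agent.TH826.MK.Torus
import Pool.Agent.X232.CU.Sym
set_option autoImplicit false

/-!
The regulators of an element of `K_{d+1}(A) ⊗ ℚ` which vanishes in the function field vanish on all
tori that avoid a divisor.
-/

namespace Pool.Agent.X232.CU

open Pool.Agent.TH826.MK

variable {A : Type*} [CommRing A] [IsDomain A] {d : ℕ} {L : Type*} [Field L] [Algebra A L]
  [IsFractionRing A L]

/-- numerator -/
noncomputable def nn (A : Type*) [CommRing A] [IsDomain A] {L : Type*} [Field L] [Algebra A L]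
    [IsFractionRing A L] (u : Lˣ) : A := (IsLocalization.sec (nonZeroDivisors A) (u : L)).1

/-- denominator -/
noncomputable def dn (A : Type*) [CommRing A] [IsDomain A] {L : Type*} [Field L] [Algebra A L]
    [IsFractionRing A L] (u : Lˣ) : A := (IsLocalization.sec (nonZeroDivisors A) (u : L)).2

theorem sec_eq (u : Lˣ) : (u : L) * algebraMap A L (dn A u) = algebraMap A L (nn A u) :=
  IsLocalization.sec_spec (nonZeroDivisors A) (u : L)

theorem dn_ne (u : Lˣ) : dn A u ≠ 0 :=
  nonZeroDivisors.ne_zero (IsLocalization.sec (nonZeroDivisors A) (u : L)).2.2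

theorem nn_ne (u : Lˣ) : nn A u ≠ 0 := by
  intro h
  have h1 := sec_eq (A := A) u
  rw [h, map_zero] at h1
  rcases mul_eq_zero.1 h1 with h2 | h2
  · exact u.ne_zero h2
  · rw [map_eq_zero_iff _ (IsFractionRing.injective A L)] at h2
    exact dn_ne u h2

/-- the product of numerator and denominator -/
noncomputable def nd (A : Type*) [CommRing A] [IsDomain A] {L : Type*} [Field L] [Algebra A L]
    [IsFractionRing A L] (u : Lˣ) : A := nn A u * dn A u

theorem nd_ne (u : Lˣ) : nd A u ≠ 0 := mul_ne_zero (nn_ne u) (dn_ne u)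

/-- the torus avoids the zeros of `h` -/
def Av (Γ : Torus A d) (h : A) : Prop := ∀ θ, Γ.e θ h ≠ 0

omit [IsDomain A] in
theorem Av.left {Γ : Torus A d} {g h : A} (H : Av Γ (g * h)) : Av Γ g := fun θ e =>
  H θ (by rw [map_mul, e, zero_mul])

omit [IsDomain A] in
theorem Av.right {Γ : Torus A d} {g h : A} (H : Av Γ (g * h)) : Av Γ h := fun θ e =>
  H θ (by rw [map_mul, e, mul_zero])

omit [IsDomain A] in
theorem Av.prod {Γ : Torus A d} {ι : Type*} {s : Finset ι} {h : ι → A}
    (H : Av Γ (∏ i ∈ s, h i)) {i : ι} (hi : i ∈ s) : Av Γ (h i) := by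
  classical
  rw [← Finset.mul_prod_erase s h hi] at H
  exact H.left

variable (Γ : Torus A d)

/-- a rational function on the torus -/
noncomputable def gf (u : Lˣ) : (Fin d → ℝ) → ℂ := fun θ => Γ.e θ (nn A u) / Γ.e θ (dn A u)

theorem gf_good {u : Lˣ} (h : Av Γ (nd A u)) : Good (gf Γ u) where
  smooth := by
    unfold gf
    simp only [div_eq_mul_inv]
    exact (Γ.smooth _).mul ((Γ.smooth _).inv h.right)
  ne_zero θ := div_ne_zero (h.left θ) (h.right θ)

theorem gf_per (u : Lˣ) : Per (gf Γ u) := fun θ i => by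
  unfold gf
  rw [Γ.periodic]

theorem gf_mul {u w : Lˣ} (hu : Av Γ (nd A u)) (hw : Av Γ (nd A w)) (huw : Av Γ (nd A (u * w))) :
    gf Γ (u * w) = fun θ => gf Γ u θ * gf Γ w θ := by
  funext θ
  unfold gf
  have e : nn A (u * w) * (dn A u * dn A w) = nn A u * nn A w * dn A (u * w) := by
    apply IsFractionRing.injective A L
    have h1 := sec_eq (A := A) (u * w)
    have h2 := sec_eq (A := A) u
    have h3 := sec_eq (A := A) w
    rw [map_mul, map_mul, map_mul, map_mul, ← h1, ← h2, ← h3, Units.val_mul]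
    ring
  have e2 := congrArg (Γ.e θ) e
  rw [map_mul, map_mul, map_mul, map_mul] at e2
  have h4 := hu.right θ
  have h5 := hw.right θ
  have h6 := huw.right θ
  rw [div_mul_div_comm, div_eq_div_iff h6 (mul_ne_zero h4 h5)]
  exact e2

theorem gf_add {u w : Lˣ} (hu : Av Γ (nd A u)) (hw : Av Γ (nd A w)) (h : (u : L) + w = 1)
    (θ : Fin d → ℝ) : gf Γ u θ + gf Γ w θ = 1 := by
  unfold gf
  have e : nn A u * dn A w + nn A w * dn A u = dn A u * dn A w := by
    apply IsFractionRing.injective A L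
    have h2 := sec_eq (A := A) u
    have h3 := sec_eq (A := A) w
    rw [map_add, map_mul, map_mul, map_mul, ← h2, ← h3]
    linear_combination (algebraMap A L (dn A u) * algebraMap A L (dn A w)) * h
  have e2 := congrArg (Γ.e θ) e
  rw [map_add, map_mul, map_mul, map_mul] at e2
  have h4 := hu.right θ
  have h5 := hw.right θ
  rw [div_add_div _ _ h4 h5, div_eq_one_iff_eq (mul_ne_zero h4 h5), ← e2]
  ring

theorem gf_unit {u : Aˣ} (h : Av Γ (nd A (Units.map (algebraMap A L : A →* L) u))) :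
    gf Γ (Units.map (algebraMap A L : A →* L) u) = Γ.fn (u : A) := by
  funext θ
  unfold gf Torus.fn
  have e : nn A (Units.map (algebraMap A L : A →* L) u) =
      u * dn A (Units.map (algebraMap A L : A →* L) u) := by
    apply IsFractionRing.injective A L
    rw [map_mul, ← sec_eq]
    rfl
  have h4 := h.right θ
  rw [e, map_mul, mul_div_assoc, div_self h4, mul_one]

/-- the regulator on formal combinations of symbols of rational functions -/
noncomputable def evG (L : Type*) [Field L] [Algebra A L] [IsFractionRing A L] (Γ : Torus A d) :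
    ((Fin (d + 1) → Lˣ) →₀ ℚ) →ₗ[ℚ] ℝ :=
  Finsupp.linearCombination ℚ fun a => pairing fun l => gf Γ (a l)

theorem evG_single (a : Fin (d + 1) → Lˣ) : evG L Γ (Finsupp.single a 1) =
    pairing fun l => gf Γ (a l) := by
  unfold evG
  simp

theorem exists_avoid {z : (Fin (d + 1) → Lˣ) →₀ ℚ}
    (hz : z ∈ Submodule.span ℚ (mulRel L (d + 1) ∪ steinbergRel L (d + 1))) :
    ∃ h : A, h ≠ 0 ∧ ∀ Γ : Torus A d, Av Γ h → evG L Γ z = 0 := by
  induction hz using Submodule.span_induction with
  | zero => exact ⟨1, one_ne_zero, fun Γ _ => by rw [map_zero]⟩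
  | add x y _ _ hx hy =>
    obtain ⟨h1, h2, h3⟩ := hx
    obtain ⟨h4, h5, h6⟩ := hy
    exact ⟨h1 * h4, mul_ne_zero h2 h5, fun Γ hΓ => by
      rw [map_add, h3 Γ hΓ.left, h6 Γ hΓ.right, add_zero]⟩
  | smul q x _ hx =>
    obtain ⟨h1, h2, h3⟩ := hx
    exact ⟨h1, h2, fun Γ hΓ => by rw [map_smul, h3 Γ hΓ, smul_zero]⟩
  | mem z hz =>
    rcases hz with ⟨a, i, x, y, rfl⟩ | ⟨a, ⟨i, j, hij, h⟩, rfl⟩
    · refine ⟨(∏ l, nd A (a l)) * (nd A x * nd A y * nd A (x * y)),
        mul_ne_zero (Finset.prod_ne_zero_iff.2 fun l _ => nd_ne _)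
          (mul_ne_zero (mul_ne_zero (nd_ne _) (nd_ne _)) (nd_ne _)), fun Γ hΓ => ?_⟩
      have hx : Av Γ (nd A x) := hΓ.right.left.left
      have hy : Av Γ (nd A y) := hΓ.right.left.right
      have hxy : Av Γ (nd A (x * y)) := hΓ.right.right
      have ha : ∀ l, Av Γ (nd A (a l)) := fun l => hΓ.left.prod (Finset.mem_univ l)
      have e : ∀ w : Lˣ, (fun l => gf Γ (Function.update a i w l)) =
          Function.update (fun l => gf Γ (a l)) i (gf Γ w) := by
        intro w
        funext l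
        by_cases hl : l = i
        · subst hl; simp
        · simp [Function.update_of_ne hl]
      rw [map_sub, map_sub, evG_single, evG_single, evG_single, e, e, e, gf_mul Γ hx hy hxy,
        pairing_update_mul (fun l => gf_good Γ (ha l)) i (gf_good Γ hx) (gf_good Γ hy)]
      ring
    · refine ⟨∏ l, nd A (a l), Finset.prod_ne_zero_iff.2 fun l _ => nd_ne _, fun Γ hΓ => ?_⟩
      have ha : ∀ l, Av Γ (nd A (a l)) := fun l => hΓ.prod (Finset.mem_univ l)
      rw [evG_single]
      exact pairing_steinberg (fun l => gf_good Γ (ha l)) (fun l => gf_per Γ _) hij.ne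
        (gf_add Γ (ha i) (ha j) h)

/-- The regulators of an element which vanishes in the function field vanish on all tori that
avoid the zeros of some nonzero function. -/
theorem reg_eq_zero {α : KQ A (d + 1)} (hα : KQ.map (d + 1) (algebraMap A L) α = 0) :
    ∃ h : A, h ≠ 0 ∧ ∀ Γ : Torus A d, Av Γ h → Γ.reg α = 0 := by
  obtain ⟨z, rfl⟩ := Submodule.Quotient.mk_surjective _ α
  set um : (Fin (d + 1) → Aˣ) → (Fin (d + 1) → Lˣ) := fun a l =>
    Units.map (algebraMap A L : A →* L) (a l) with hum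
  have h1 : ∀ z : (Fin (d + 1) → Aˣ) →₀ ℚ, KQ.map (d + 1) (algebraMap A L) (KQ.mkQ z) =
      KQ.mkQ (Finsupp.lmapDomain ℚ ℚ um z) := by
    intro z
    induction z using Finsupp.induction_linear with
    | zero => simp only [map_zero]
    | add f g hf hg => simp only [map_add, hf, hg]
    | single a q =>
      have e : (Finsupp.single a q : (Fin (d + 1) → Aˣ) →₀ ℚ) = q • Finsupp.single a 1 := by simp
      rw [e]
      simp only [map_smul]
      congr 1
      rw [Finsupp.lmapDomain_apply, Finsupp.mapDomain_single]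
      exact KQ.map_symb (algebraMap A L) a
  have h2 : Finsupp.lmapDomain ℚ ℚ um z ∈
      Submodule.span ℚ (mulRel L (d + 1) ∪ steinbergRel L (d + 1)) := by
    have h3 := h1 z
    have h4 : KQ.map (d + 1) (algebraMap A L) (KQ.mkQ z) = 0 := hα
    rw [h4] at h3
    exact (Submodule.Quotient.mk_eq_zero _).1 h3.symm
  obtain ⟨h, hh, H⟩ := exists_avoid (A := A) h2
  have h5 : ∀ z : (Fin (d + 1) → Aˣ) →₀ ℚ, ∃ h : A, h ≠ 0 ∧ ∀ Γ : Torus A d, Av Γ h →
      Γ.reg (KQ.mkQ z) = evG L Γ (Finsupp.lmapDomain ℚ ℚ um z) := by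
    intro z
    induction z using Finsupp.induction_linear with
    | zero => exact ⟨1, one_ne_zero, fun Γ _ => by simp only [map_zero]⟩
    | add f g hf hg =>
      obtain ⟨g1, g2, g3⟩ := hf
      obtain ⟨g4, g5, g6⟩ := hg
      exact ⟨g1 * g4, mul_ne_zero g2 g5, fun Γ hΓ => by
        simp only [map_add, g3 Γ hΓ.left, g6 Γ hΓ.right]⟩
    | single a q =>
      refine ⟨∏ l, nd A (um a l), Finset.prod_ne_zero_iff.2 fun l _ => nd_ne _, fun Γ hΓ => ?_⟩
      have e : (Finsupp.single a q : (Fin (d + 1) → Aˣ) →₀ ℚ) = q • Finsupp.single a 1 := by simp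
      rw [e]
      simp only [map_smul]
      congr 1
      rw [Finsupp.lmapDomain_apply, Finsupp.mapDomain_single, evG_single]
      have e2 : Γ.reg (KQ.mkQ (Finsupp.single a 1)) = Γ.pair a := Γ.reg_symb a
      rw [e2]
      unfold Torus.pair
      congr 1
      funext l
      exact (gf_unit Γ (hΓ.prod (Finset.mem_univ l))).symm
  obtain ⟨g, hg, G⟩ := h5 z
  refine ⟨h * g, mul_ne_zero hh hg, fun Γ hΓ => ?_⟩
  have h6 : Γ.reg (KQ.mkQ z) = 0 := by rw [G Γ hΓ.right, H Γ hΓ.left]
  exact h6

end Pool.Agent.X232.CU
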