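import Pool.Agent.TH826.UM.Scale
import Pool.Agent.X232.CU.Inj
import Pool.Agent.X232.CU.WD
set_option autoImplicit false

/-!
Loops on the curve `λ ∏_i (x - a_i) ∏_j (y - b_j) = 1` that avoid the zeros of a given function,
with nonsingular regulator matrix.
-/

namespace Pool.Agent.X232.CU

open Pool.Agent.TH826.MK

open Pool.Agent.TH826.UM

open Pool.Agent.TH826.MH (CRing fpol ent ux fx mkT mkT_ux evX_fpol good_w)

/-- the tori of `Pool.Agent.TH826.UM.exists_tori`, with the description of their coordinates -/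
theorem exists_tori_pos {K : Type*} [Field K] {σ : K →+* ℂ} {lam : K} {d : ℕ} (hd : 0 < d)
    {r : Fin (d + 1) → ℕ} {a : ∀ k, Fin (r k + 1) → K}
    (hsep : ∀ k i j, i ≠ j → 3 ≤ ‖σ (a k i) - σ (a k j)‖) (hlam : 2 ≤ ‖σ lam‖) :
    ∃ (Γ : (∀ k, Fin (r k)) → Torus (CRing lam a) d)
      (e : (∀ k, Fin (r k)) → (∀ k, Fin (r k + 1))),
      (∀ t θ (x : K), (Γ t).e θ (fpol lam a (MvPolynomial.C x)) = σ x) ∧
      (∀ t θ (k : Fin d), (Γ t).e θ (fpol lam a (MvPolynomial.X k.succ)) =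
        circ 1 (θ k) + σ (a k.succ (e t k.succ))) ∧
      (Matrix.of fun t i : (∀ k, Fin (r k)) => (Γ t).reg (symb (ent lam a i))).det ≠ 0 := by
  classical
  set β0 : Fin (r 0 + 1) → ℂ := fun i => σ (a 0 i) with hβ0d
  set β : ∀ k : Fin d, Fin (r k.succ + 1) → ℂ := fun k i => σ (a k.succ i) with hβd
  have hβ0 : ∀ i j, i ≠ j → 3 ≤ ‖β0 i - β0 j‖ := hsep 0
  have hβ : ∀ k i j, i ≠ j → 3 ≤ ‖β k i - β k j‖ := fun k => hsep k.succ
  have hlam0 : σ lam ≠ 0 := by
    rw [← norm_pos_iff]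
    linarith
  obtain ⟨G, hG1, hG2, hG3, hG4⟩ := exists_G hβ0
  have hns := nonsing hd hβ0 hβ hlam hG1 hG2 hG3 hG4
  have hw := fun q θ => norm_ww_le_half hβ hlam q θ
  have gw : ∀ q, Good (ww (σ lam) β q) := fun q => good_w (good_FF hβ q) hlam0
  set X : (∀ k, Fin (r k + 1)) → (Fin d → ℝ) → (Fin (d + 1) → ℂ) := fun q θ =>
    Fin.cons (G (q 0) (ww (σ lam) β (fun k => q k.succ) θ))
      (fun k => circ 1 (θ k) + β k (q k.succ)) with hX
  have hX0 : ∀ q θ, X q θ 0 = G (q 0) (ww (σ lam) β (fun k => q k.succ) θ) := fun q θ => rfl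
  have hXs : ∀ q θ (k : Fin d), X q θ k.succ = circ 1 (θ k) + β k (q k.succ) :=
    fun q θ k => rfl
  have hXc : ∀ q, ContDiff ℝ 2 (X q) := by
    intro q
    refine contDiff_pi.2 fun k => ?_
    refine Fin.cases ?_ (fun k => ?_) k
    · simp only [hX0]
      rw [contDiff_iff_contDiffAt]
      intro θ
      exact ((hG1 _ _ (hw _ θ)).contDiffAt.restrict_scalars ℝ).comp θ
        (gw _).smooth.contDiffAt
    · simp only [hXs]
      exact ((contDiff_circ 1).comp (contDiff_apply ℝ ℝ k)).add contDiff_const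
  have hXp : ∀ q θ i, X q (θ + Pi.single i 1) = X q θ := by
    intro q θ i
    funext k
    refine Fin.cases ?_ (fun k => ?_) k
    · rw [hX0, hX0, per_ww hβ _ θ i]
    · rw [hXs, hXs]
      congr 1
      exact congrFun (tpt_add_single (fun _ => 1) θ i) k
  have hXf : ∀ q θ (k : Fin d) i, X q θ k.succ - σ (a k.succ i) =
      ff β (fun k => q k.succ) k i (θ k) := by
    intro q θ k i
    rw [hXs]
    unfold ff
    simp only [hβd]
    ring
  have hXx : ∀ q θ, σ lam * ∏ k, ∏ i, (X q θ k - σ (a k i)) = 1 := by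
    intro q θ
    rw [Fin.prod_univ_succ]
    have h1 : ∏ i, (X q θ 0 - σ (a 0 i)) = ww (σ lam) β (fun k => q k.succ) θ :=
      hG2 _ _ (hw _ θ)
    have h2 : ∏ k : Fin d, ∏ i, (X q θ k.succ - σ (a k.succ i)) =
        FF β (fun k => q k.succ) θ := by
      unfold FF
      exact Finset.prod_congr rfl fun k _ => Finset.prod_congr rfl fun i _ => hXf q θ k i
    rw [h1, h2]
    unfold ww
    have h3 := (good_FF hβ (fun k => q k.succ)).ne_zero θ
    field_simp
  set Γ' : (∀ k, Fin (r k + 1)) → Torus (CRing lam a) d := fun q =>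
    mkT (X q) (hXc q) (hXp q) (hXx q) with hΓ'
  set W : Matrix (∀ k, Fin (r k + 1)) (∀ k, Fin (r k + 1)) ℝ :=
    Matrix.of fun p q => (Γ' q).pair fun k => ux lam a k (p k) with hW
  set E : (∀ k, Fin (r k + 1)) ≃ Fin (r 0 + 1) × (∀ k : Fin d, Fin (r k.succ + 1)) :=
    (Fin.consEquiv fun k => Fin (r k + 1)).symm with hE
  have hWE : W = -((Matrix.of (RR β0 β (σ lam) G)).submatrix E E) := by
    ext p q
    rw [Matrix.neg_apply, Matrix.submatrix_apply, Matrix.of_apply, hW, Matrix.of_apply]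
    unfold RR
    rw [neg_neg]
    unfold Torus.pair
    congr 1
    funext k θ
    rw [hΓ', mkT_ux]
    refine Fin.cases ?_ (fun k => ?_) k
    · rfl
    · exact hXf q θ k (p k.succ)
  have hWdet : W.det ≠ 0 := by
    rw [hWE, Matrix.det_neg, Matrix.det_submatrix_equiv_self]
    exact mul_ne_zero (pow_ne_zero _ (by norm_num)) hns
  obtain ⟨e, he⟩ := exists_columns W hWdet
  refine ⟨fun t => Γ' (e t), e, fun t θ x => ?_, fun t θ k => ?_, ?_⟩
  · show Pool.Agent.TH826.MH.evX (hXx (e t) θ) (fpol lam a (MvPolynomial.C x)) = σ x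
    rw [evX_fpol]
    simp
  · show Pool.Agent.TH826.MH.evX (hXx (e t) θ) (fpol lam a (MvPolynomial.X k.succ)) = _
    rw [evX_fpol, MvPolynomial.coe_eval₂Hom, MvPolynomial.eval₂_X, hXs]
  · have hM : (Matrix.of fun t i : (∀ k, Fin (r k)) =>
        (Γ' (e t)).reg (symb (ent lam a i))) = Matrix.of fun t i : (∀ k, Fin (r k)) =>
        ∑ p, (∏ k, Pool.Agent.TH826.UB.dd (i k) (p k)) * W p (e t) := by
      ext t i
      rw [Matrix.of_apply, Matrix.of_apply, Torus.reg_symb]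
      exact pair_expand (Γ' (e t)) (fun k => ux lam a k) i
    rw [hM]
    exact he

/-- the same after a change of scale -/
theorem exists_tori_pos_scaled {K : Type*} [Field K] {σ : K →+* ℂ} {lam : K} {d : ℕ} (hd : 0 < d)
    {r : Fin (d + 1) → ℕ} {a : ∀ k, Fin (r k + 1) → K} {δ : Fin (d + 1) → ℝ}
    (hδ : ∀ k, 0 < δ k) (hsep : ∀ k i j, i ≠ j → 3 * δ k ≤ ‖σ (a k i) - σ (a k j)‖)
    (hlam : 2 ≤ ‖σ lam‖ * ∏ k, δ k ^ (r k + 1)) :
    ∃ (Γ : (∀ k, Fin (r k)) → Torus (CRing lam a) d)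
      (e : (∀ k, Fin (r k)) → (∀ k, Fin (r k + 1))),
      (∀ t θ (x : K), (Γ t).e θ (fpol lam a (MvPolynomial.C x)) = σ x) ∧
      (∀ t θ (k : Fin d), (Γ t).e θ (fpol lam a (MvPolynomial.X k.succ)) =
        δ k.succ * circ 1 (θ k) + σ (a k.succ (e t k.succ))) ∧
      (Matrix.of fun t i : (∀ k, Fin (r k)) => (Γ t).reg (symb (ent lam a i))).det ≠ 0 := by
  set ε : Fin (d + 1) → ℂ := fun k => (δ k : ℂ) with hε
  have hε0 : ∀ k, ε k ≠ 0 := fun k => Complex.ofReal_ne_zero.2 (hδ k).ne'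
  have hεn : ∀ k, ‖ε k‖ = δ k := fun k => by
    simp only [hε]
    rw [Complex.norm_real, Real.norm_of_nonneg (hδ k).le]
  obtain ⟨Γ, e, h1, h3, h2⟩ := exists_tori_pos (K := ℂ) (σ := RingHom.id ℂ)
    (lam := sl σ lam r ε) hd
    (a := sa σ a ε) (fun k i j hij => by
      unfold sa
      rw [RingHom.id_apply, RingHom.id_apply, ← sub_div, norm_div, hεn, le_div_iff₀ (hδ k)]
      exact hsep k i j hij) (by
      unfold sl
      rw [RingHom.id_apply, norm_mul, norm_prod]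
      simp only [norm_pow, hεn]
      exact hlam)
  refine ⟨fun t => comap (Pool.Agent.TH826.UM.phi lam a hε0) (Γ t), e, fun t θ x => ?_,
    fun t θ k => ?_, ?_⟩
  · show (Γ t).e θ (Pool.Agent.TH826.UM.phi lam a hε0 (fpol lam a (MvPolynomial.C x))) = σ x
    rw [phi_fpol, phi0_C, h1]
    rfl
  · show (Γ t).e θ (Pool.Agent.TH826.UM.phi lam a hε0 (fpol lam a (MvPolynomial.X k.succ))) = _
    rw [phi_fpol]
    unfold phi0
    rw [MvPolynomial.coe_eval₂Hom, MvPolynomial.eval₂_X, map_mul, map_mul, h1, h3]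
    unfold sa
    have := hε0 k.succ
    rw [RingHom.id_apply, RingHom.id_apply]
    field_simp
    ring
  · have hM : (Matrix.of fun t i : (∀ k, Fin (r k)) =>
        (comap (Pool.Agent.TH826.UM.phi lam a hε0) (Γ t)).reg (symb (ent lam a i))) =
        Matrix.of fun t i : (∀ k, Fin (r k)) => (Γ t).reg (symb (ent _ _ i)) := by
      ext t i
      rw [Matrix.of_apply, Matrix.of_apply, comap_reg]
      simp only [phi_ent]
    rw [hM]
    exact h2

/-- Loops that avoid the zeros of a function. -/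
theorem exists_loops_avoid {K : Type*} [Field K] [Infinite K] {σ : K →+* ℂ} {lam : K}
    {r : Fin 2 → ℕ} {a : ∀ k, Fin (r k + 1) → K} {δ : Fin 2 → ℝ} (hl : lam ≠ 0)
    (ha : ∀ k, Function.Injective (a k))
    (hδ : ∀ k, 0 < δ k) (hsep : ∀ k i j, i ≠ j → 3 * δ k ≤ ‖σ (a k i) - σ (a k j)‖)
    (hlam : 2 < ‖σ lam‖ * ∏ k, δ k ^ (r k + 1)) {h : CRing lam a} (hh : h ≠ 0) :
    ∃ Γ : (∀ k, Fin (r k)) → Torus (CRing lam a) 1,
      (∀ t θ (x : K), (Γ t).e θ (fpol lam a (MvPolynomial.C x)) = σ x) ∧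
      (∀ t, Av (Γ t) h) ∧
      (Matrix.of fun t i : (∀ k, Fin (r k)) => (Γ t).reg (symb (ent lam a i))).det ≠ 0 := by
  classical
  obtain ⟨c, hc, g, hg⟩ := exists_dvd hl ha 1 hh
  have hc' : c.map σ ≠ 0 := by
    rwa [Ne, Polynomial.map_eq_zero]
  -- the bad radii
  set bad : Finset ℝ := ((c.map σ).roots.toFinset ×ˢ (Finset.univ : Finset (Fin (r 1 + 1)))).image
    fun p => ‖p.1 - σ (a 1 p.2)‖ with hbad
  have hev : ∀ᶠ s in nhdsWithin (δ 1) (Set.Iio (δ 1)), 0 < s ∧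
      2 < ‖σ lam‖ * (δ 0 ^ (r 0 + 1) * s ^ (r 1 + 1)) := by
    refine (nhdsWithin_le_nhds (s := Set.Iio (δ 1))) ?_
    have hcont : Continuous fun s : ℝ => ‖σ lam‖ * (δ 0 ^ (r 0 + 1) * s ^ (r 1 + 1)) := by
      fun_prop
    have h1 : 2 < ‖σ lam‖ * (δ 0 ^ (r 0 + 1) * (δ 1) ^ (r 1 + 1)) := by
      rw [Fin.prod_univ_two] at hlam
      exact hlam
    filter_upwards [eventually_gt_nhds (hδ 1), hcont.continuousAt.eventually
      (eventually_gt_nhds h1)] with s hs1 hs2 using ⟨hs1, hs2⟩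
  obtain ⟨s0, ⟨hs1, hs2⟩, hs3⟩ := (hev.and self_mem_nhdsWithin).exists
  obtain ⟨s, hs, hsb⟩ := (Set.Ioo_infinite (show s0 < δ 1 from hs3)).exists_notMem_finset bad
  have hs0 : 0 < s := hs1.trans hs.1
  set δ' : Fin 2 → ℝ := ![δ 0, s] with hδ'
  have hδ0 : δ' 0 = δ 0 := rfl
  have hδ1 : δ' 1 = s := rfl
  obtain ⟨Γ, e, h1, h2, h3⟩ := exists_tori_pos_scaled (σ := σ) (lam := lam) (d := 1) one_pos
    (r := r) (a := a) (δ := δ') (fun k => by
      fin_cases k
      · exact hδ 0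
      · exact hs0) (fun k i j hij => by
      refine le_trans ?_ (hsep k i j hij)
      fin_cases k
      · exact le_refl _
      · show 3 * s ≤ 3 * δ 1
        linarith [hs.2]) (by
      rw [Fin.prod_univ_two]
      show 2 ≤ ‖σ lam‖ * (δ 0 ^ (r 0 + 1) * s ^ (r 1 + 1))
      refine hs2.le.trans ?_
      have h4 : s0 ^ (r 1 + 1) ≤ s ^ (r 1 + 1) := pow_le_pow_left₀ hs1.le hs.1.le _
      have h5 : 0 ≤ δ 0 ^ (r 0 + 1) := pow_nonneg (hδ 0).le _
      exact mul_le_mul_of_nonneg_left (mul_le_mul_of_nonneg_left h4 h5) (norm_nonneg _))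
  refine ⟨Γ, h1, fun t θ h0 => ?_, h3⟩
  have h4 : (Γ t).e θ (phi lam a 1 c) = 0 := by rw [hg, map_mul, h0, zero_mul]
  have h5 : (Γ t).e θ (fpol lam a (MvPolynomial.X 1)) =
      (s : ℂ) * circ 1 (θ 0) + σ (a 1 (e t 1)) := h2 t θ 0
  have h6 : ((Γ t).e θ).comp (phi lam a 1) =
      (Polynomial.eval₂RingHom σ ((s : ℂ) * circ 1 (θ 0) + σ (a 1 (e t 1)))) := by
    refine Polynomial.ringHom_ext' (RingHom.ext fun x => ?_) ?_
    · show (Γ t).e θ (phi lam a 1 (Polynomial.C x)) = _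
      rw [phi_C, h1]
      simp
    · show (Γ t).e θ (phi lam a 1 Polynomial.X) = _
      rw [phi_X, h5]
      simp
  have h7 : (c.map σ).eval ((s : ℂ) * circ 1 (θ 0) + σ (a 1 (e t 1))) = 0 := by
    rw [Polynomial.eval_map]
    have := congrArg (fun g => g c) h6
    exact this.symm.trans h4
  apply hsb
  rw [hbad, Finset.mem_image]
  refine ⟨((s : ℂ) * circ 1 (θ 0) + σ (a 1 (e t 1)), e t 1), ?_, ?_⟩
  · rw [Finset.mem_product, Multiset.mem_toFinset, Polynomial.mem_roots hc']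
    exact ⟨h7, Finset.mem_univ _⟩
  · simp only [add_sub_cancel_right, norm_mul, norm_circ zero_le_one, mul_one, Complex.norm_real,
      Real.norm_of_nonneg hs0.le]

end Pool.Agent.X232.CU
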