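import Pool.Agent.X232.CU.Sym
set_option autoImplicit false

/-!
`K_2(ℚ) ⊗ ℚ = 0` (Tate's algorithm).
-/

namespace Pool.Agent.X232.CU

open Pool.Agent.TH826.MK (KQ symb)

theorem sy_swap {L : Type*} [Field L] (a b : Lˣ) : sy a b = -sy b a := by
  have h := sy_self (a * b)
  rw [sy_mul_left, sy_mul_right, sy_mul_right, sy_self, sy_self, zero_add, add_zero] at h
  exact eq_neg_of_add_eq_zero_left h

/-- a positive integer as a unit of `ℚ` -/
noncomputable def nu (n : ℕ) : ℚˣ := if h : (n : ℚ) ≠ 0 then Units.mk0 (n : ℚ) h else 1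

theorem coe_nu {n : ℕ} (h : n ≠ 0) : (nu n : ℚ) = n := by
  have h' : (n : ℚ) ≠ 0 := by exact_mod_cast h
  unfold nu
  rw [dif_pos h', Units.val_mk0]

theorem nu_mul {m n : ℕ} (hm : m ≠ 0) (hn : n ≠ 0) : nu (m * n) = nu m * nu n := by
  ext
  rw [Units.val_mul, coe_nu hm, coe_nu hn, coe_nu (mul_ne_zero hm hn), Nat.cast_mul]

theorem nu_one : nu 1 = 1 := by
  ext
  rw [coe_nu one_ne_zero]
  simp

/-- the induction step for primes -/
theorem prime_step {p : ℕ} (hp : p.Prime)
    (IH : ∀ m n : ℕ, 0 < m → 0 < n → m < p → n < p → sy (nu m) (nu n) = 0) (m : ℕ) (hm : 0 < m)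
    (hmp : m < p) : sy (nu p) (nu m) = 0 := by
  have hp0 : p ≠ 0 := hp.ne_zero
  -- multiplicativity modulo `p`
  have hmul : ∀ m m' : ℕ, 0 < m → m < p → 0 < m' → m' < p →
      sy (nu p) (nu (m * m' % p)) = sy (nu p) (nu m) + sy (nu p) (nu m') := by
    intro m m' h1 h2 h3 h4
    set q := m * m' / p with hq
    set s := m * m' % p with hs
    have hqs : p * q + s = m * m' := Nat.div_add_mod _ _
    have hs0 : s ≠ 0 := by
      intro h0
      have hd : p ∣ m * m' := Nat.dvd_of_mod_eq_zero h0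
      rcases (Nat.Prime.dvd_mul hp).1 hd with h | h
      · exact absurd (Nat.le_of_dvd h1 h) (by omega)
      · exact absurd (Nat.le_of_dvd h3 h) (by omega)
    have hsp : s < p := Nat.mod_lt _ hp.pos
    have hqp : q < p := by
      by_contra hcon
      push Not at hcon
      have h5 : m * m' < p * p := Nat.mul_lt_mul'' h2 h4
      have h6 : p * p ≤ p * q := Nat.mul_le_mul_left p hcon
      omega
    by_cases hq0 : q = 0
    · rw [hq0, mul_zero, zero_add] at hqs
      rw [hqs, nu_mul h1.ne' h3.ne', sy_mul_right]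
    · have hst : sy (nu p * nu q / (nu m * nu m')) (nu s / (nu m * nu m')) = 0 := by
        refine sy_steinberg ?_
        have e1 : (m : ℚ) ≠ 0 := by exact_mod_cast h1.ne'
        have e2 : (m' : ℚ) ≠ 0 := by exact_mod_cast h3.ne'
        have e3 : ((p * q + s : ℕ) : ℚ) = ((m * m' : ℕ) : ℚ) := by rw [hqs]
        push_cast at e3
        rw [Units.val_div_eq_div_val, Units.val_div_eq_div_val, Units.val_mul, Units.val_mul,
          coe_nu hp0, coe_nu hq0, coe_nu h1.ne', coe_nu h3.ne', coe_nu hs0, ← add_div, e3]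
        exact div_self (mul_ne_zero e1 e2)
      have i1 : ∀ x y : ℕ, 0 < x → 0 < y → x < p → y < p → sy (nu x) (nu y) = 0 := IH
      have hq1 : 0 < q := Nat.pos_of_ne_zero hq0
      have hs1 : 0 < s := Nat.pos_of_ne_zero hs0
      rw [sy_div_left, sy_mul_left, sy_mul_left, sy_div_right, sy_div_right, sy_div_right,
        sy_div_right, sy_mul_right, sy_mul_right, sy_mul_right, sy_mul_right,
        i1 q s hq1 hs1 hqp hsp, i1 q m hq1 h1 hqp h2, i1 q m' hq1 h3 hqp h4,
        i1 m s h1 hs1 h2 hsp, i1 m m h1 h1 h2 h2, i1 m m' h1 h3 h2 h4, i1 m' s h3 hs1 h4 hsp,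
        i1 m' m h3 h1 h4 h2, i1 m' m' h3 h3 h4 h4] at hst
      have h7 : sy (nu p) (nu s) - (sy (nu p) (nu m) + sy (nu p) (nu m')) = 0 := by
        simpa using hst
      exact sub_eq_zero.1 h7
  -- powers
  have hcop : Nat.Coprime m p := Nat.Coprime.symm ((Nat.Prime.coprime_iff_not_dvd hp).2 fun h =>
    absurd (Nat.le_of_dvd hm h) (by omega))
  have hpow : ∀ k : ℕ, sy (nu p) (nu (m ^ k % p)) = (k : ℚ) • sy (nu p) (nu m) := by
    intro k
    induction k with
    | zero =>
      rw [pow_zero, Nat.mod_eq_of_lt hp.one_lt, nu_one, sy_one_right]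
      simp
    | succ k ih =>
      have h0 : 0 < m ^ k % p := by
        rcases Nat.eq_zero_or_pos (m ^ k % p) with h | h
        · exfalso
          have h1 : p ∣ m ^ k := Nat.dvd_of_mod_eq_zero h
          have h2 : p ∣ m := hp.dvd_of_dvd_pow h1
          exact absurd (Nat.le_of_dvd hm h2) (by omega)
        · exact h
      have h1 := hmul (m ^ k % p) m h0 (Nat.mod_lt _ hp.pos) hm hmp
      have h2 : m ^ k % p * m % p = m ^ (k + 1) % p := by
        rw [pow_succ, Nat.mul_mod, Nat.mod_mod, ← Nat.mul_mod]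
      rw [h2, ih] at h1
      rw [h1]
      push_cast
      rw [add_smul, one_smul]
  have hfer : m ^ (p - 1) % p = 1 := by
    have h1 : m ^ (p - 1) ≡ 1 [MOD p] := by
      have := Nat.ModEq.pow_totient hcop
      rwa [Nat.totient_prime hp] at this
    have h2 : m ^ (p - 1) % p = 1 % p := h1
    rwa [Nat.mod_eq_of_lt hp.one_lt] at h2
  have h := hpow (p - 1)
  rw [hfer, nu_one, sy_one_right] at h
  have hne : ((p - 1 : ℕ) : ℚ) ≠ 0 := by
    have := hp.one_lt
    have : p - 1 ≠ 0 := by omega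
    exact_mod_cast this
  exact (smul_eq_zero.1 h.symm).resolve_left hne

theorem nat_zero (N : ℕ) : ∀ m n : ℕ, 0 < m → 0 < n → m ≤ N → n ≤ N →
    sy (nu m) (nu n) = 0 := by
  induction N using Nat.strong_induction_on with
  | _ N IH =>
    -- one entry is `N`
    have hN : ∀ n : ℕ, 0 < n → n < N → sy (nu N) (nu n) = 0 := by
      intro n hn hnN
      by_cases hp : N.Prime
      · refine prime_step hp (fun x y hx hy hxN hyN => ?_) n hn hnN
        exact IH (max x y) (max_lt hxN hyN) x y hx hy (le_max_left _ _) (le_max_right _ _)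
      · have hN2 : 2 ≤ N := by omega
        obtain ⟨d, hd, hd1, hdN⟩ := Nat.exists_dvd_of_not_prime hN2 hp
        obtain ⟨e, rfl⟩ := hd
        have hd0 : 0 < d := Nat.pos_of_ne_zero (by rintro rfl; simp at hN2)
        have he0 : 0 < e := Nat.pos_of_ne_zero (by rintro rfl; simp at hN2)
        have hdlt : d < d * e := by
          refine lt_mul_of_one_lt_right hd0 ?_
          rcases Nat.lt_or_ge 1 e with h | h
          · exact h
          · have : e = 1 := by omega
            subst this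
            simp at hdN
        have helt : e < d * e := by
          refine lt_mul_of_one_lt_left he0 ?_
          omega
        rw [nu_mul hd0.ne' he0.ne', sy_mul_left,
          IH (max d n) (max_lt hdlt hnN) d n hd0 hn (le_max_left _ _) (le_max_right _ _),
          IH (max e n) (max_lt helt hnN) e n he0 hn (le_max_left _ _) (le_max_right _ _), add_zero]
    intro m n hm hn hmN hnN
    rcases lt_or_eq_of_le hmN with h1 | h1
    · rcases lt_or_eq_of_le hnN with h2 | h2
      · exact IH (max m n) (max_lt h1 h2) m n hm hn (le_max_left _ _) (le_max_right _ _)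
      · rw [h2, sy_swap, hN m hm h1, neg_zero]
    · rcases lt_or_eq_of_le hnN with h2 | h2
      · rw [h1, hN n hn h2]
      · rw [h1, h2, sy_self]

theorem exists_nu (a : ℚˣ) : ∃ m n : ℕ, m ≠ 0 ∧ n ≠ 0 ∧ (a = nu m / nu n ∨ a = -(nu m / nu n)) := by
  have h0 : (a : ℚ).num ≠ 0 := Rat.num_ne_zero.2 a.ne_zero
  refine ⟨(a : ℚ).num.natAbs, (a : ℚ).den, Int.natAbs_ne_zero.2 h0, (a : ℚ).den_ne_zero, ?_⟩
  have h1 : (a : ℚ) = (a : ℚ).num / (a : ℚ).den := (Rat.num_div_den _).symm
  rcases Int.natAbs_eq (a : ℚ).num with h | h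
  · left
    ext
    rw [Units.val_div_eq_div_val, coe_nu (Int.natAbs_ne_zero.2 h0), coe_nu (a : ℚ).den_ne_zero]
    conv_lhs => rw [h1, h, Int.cast_natCast]
  · right
    ext
    rw [Units.val_neg, Units.val_div_eq_div_val, coe_nu (Int.natAbs_ne_zero.2 h0),
      coe_nu (a : ℚ).den_ne_zero]
    conv_lhs => rw [h1, h, Int.cast_neg, Int.cast_natCast, neg_div]

/-- `K_2(ℚ) ⊗ ℚ = 0` -/
theorem rat_zero (a b : ℚˣ) : sy a b = 0 := by
  obtain ⟨m, n, hm, hn, h⟩ := exists_nu a
  obtain ⟨m', n', hm', hn', h'⟩ := exists_nu b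
  have key : sy (nu m / nu n) (nu m' / nu n') = 0 := by
    have z : ∀ x y : ℕ, x ≠ 0 → y ≠ 0 → sy (nu x) (nu y) = 0 := fun x y hx hy =>
      nat_zero (max x y) x y (Nat.pos_of_ne_zero hx) (Nat.pos_of_ne_zero hy) (le_max_left _ _)
        (le_max_right _ _)
    rw [sy_div_left, sy_div_right, sy_div_right, z m m' hm hm', z m n' hm hn', z n m' hn hm',
      z n n' hn hn']
    simp
  rcases h with rfl | rfl <;> rcases h' with rfl | rfl <;>
    simp only [sy_neg_left, sy_neg_right, key]

end Pool.Agent.X232.CU
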