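import Pool.Agent.X232.CU.Defs
import Pool.Agent.X232.CU.Ker
import Pool.Agent.X232.CU.Loops
import Pool.Agent.X232.CU.Rat
set_option autoImplicit false

/-!
The symbols of the units of the coordinate ring of the curve `λ ∏_i (x - a_i) ∏_j (y - b_j) = 1`:
the unramified part and the regulators.
-/

namespace Pool.Agent.X232.CU

open Pool.Agent.TH826.MK

open Pool.Agent.TH826.MH (CRing fpol ent ux fx)

open scoped WithZero

section defs

variable {K : Type*} [Field K] {r : Fin 2 → ℕ} (lam : K) (a : ∀ k, Fin (r k + 1) → K)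
  (L : Type*) [Field L] [Algebra (CRing lam a) L]

/-- the classes of the symbols `{(x - a_i)/(x - a_{i+1}), (y - b_j)/(y - b_{j+1})}` -/
noncomputable def cl (i : ∀ k, Fin (r k)) : KQ L 2 :=
  KQ.map 2 (algebraMap (CRing lam a) L) (symb (ent lam a i))

end defs

section alt

variable {A : Type*} [CommRing A]

theorem pair_self (Γ : Torus A 1) (f : Aˣ) : Γ.reg (sy f f) = 0 := by
  unfold sy
  rw [Torus.reg_symb]
  unfold Torus.pair
  have h := pairing_self (d := 1) (f := Γ.fn (f : A)) (g := fun _ => Γ.fn (f : A)) 0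
  have e : (fun l : Fin (1 + 1) => Γ.fn ((![f, f] : Fin 2 → Aˣ) l : A)) =
      Fin.cons (Γ.fn (f : A)) (Function.update (fun _ => Γ.fn (f : A)) (0 : Fin 1)
        (Γ.fn (f : A))) := by
    funext l
    refine Fin.cases ?_ (fun l => ?_) l
    · rfl
    · rw [Fin.cons_succ, Subsingleton.elim l 0, Function.update_self]
      rfl
  rw [e]
  exact h

theorem pair_const (Γ : Torus A 1) (f g : Aˣ) {c c' : ℂ} (hf : ∀ θ, Γ.e θ (f : A) = c)
    (hg : ∀ θ, Γ.e θ (g : A) = c') : Γ.reg (sy f g) = 0 := by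
  unfold sy
  rw [Torus.reg_symb]
  unfold Torus.pair pairing
  have e : ∀ y : Fin (1 + 1) → ℝ,
      integrand (fun l : Fin (1 + 1) => Γ.fn ((![f, g] : Fin 2 → Aˣ) l : A)) y = 0 := by
    intro y
    unfold integrand
    have e1 : Γ.fn (f : A) = fun _ => c := funext hf
    have e2 : Γ.fn (g : A) = fun _ => c' := funext hg
    have h0 : ∀ l : Fin (1 + 1), grow (Γ.fn ((![f, g] : Fin 2 → Aˣ) l : A)) y 1 = 0 := by
      intro l
      refine Fin.cases ?_ (fun l => ?_) l
      · show grow (Γ.fn (f : A)) y (Fin.succ 0) = 0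
        rw [e1, grow_const]
      · rw [Subsingleton.elim l 0]
        show grow (Γ.fn (g : A)) y (Fin.succ 0) = 0
        rw [e2, grow_const]
    have hdet : (Matrix.of fun l : Fin (1 + 1) =>
        grow ((fun l : Fin (1 + 1) => Γ.fn ((![f, g] : Fin 2 → Aˣ) l : A)) l) y).det = 0 :=
      Matrix.det_eq_zero_of_column_eq_zero 1 h0
    rw [hdet]
    simp
  simp only [e]
  simp

end alt

section main

variable {K : Type*} [Field K] {r : Fin 2 → ℕ} {lam : K} {a : ∀ k, Fin (r k + 1) → K}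
  {L : Type*} [Field L] [Algebra (CRing lam a) L] {σ : K →+* ℂ}

theorem alt_im : Alt (KQ.map 2 (algebraMap (CRing lam a) L)) := fun f => by
  rw [map_sy, sy_self]

/-- the image in the function field together with all regulators over `σ` -/
noncomputable def Psi (σ : K →+* ℂ) (lam : K) (a : ∀ k, Fin (r k + 1) → K) (L : Type*) [Field L]
    [Algebra (CRing lam a) L] :
    KQ (CRing lam a) 2 →ₗ[ℚ] KQ L 2 × ({Γ : Torus (CRing lam a) 1 // Over σ Γ} → ℝ) :=
  (KQ.map 2 (algebraMap (CRing lam a) L)).prod (LinearMap.pi fun Γ => Γ.1.reg)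

theorem Psi_fst (α : KQ (CRing lam a) 2) :
    (Psi σ lam a L α).1 = KQ.map 2 (algebraMap (CRing lam a) L) α := rfl

theorem Psi_snd (α : KQ (CRing lam a) 2) (Γ : {Γ : Torus (CRing lam a) 1 // Over σ Γ}) :
    (Psi σ lam a L α).2 Γ = Γ.1.reg α := rfl

theorem alt_Psi : Alt (Psi σ lam a L) := fun f => by
  refine Prod.ext ?_ (funext fun Γ => ?_)
  · exact alt_im f
  · exact pair_self Γ.1 f

theorem reg_const (Γ : Torus (CRing lam a) 1) (hΓ : Over σ Γ) (c c' : Kˣ) :
    Γ.reg (sy (cu lam a c) (cu lam a c')) = 0 :=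
  pair_const Γ _ _ (fun θ => hΓ θ c) fun θ => hΓ θ c'

theorem cu_sy (c c' : Kˣ) : KQ.map 2 (algebraMap (CRing lam a) L)
    (sy (cu lam a c) (cu lam a c')) = KQ.map 2 (cst lam a L) (sy c c') := by
  rw [map_sy, map_sy]
  rfl

theorem C2_fst {z : KQ L 2 × ({Γ : Torus (CRing lam a) 1 // Over σ Γ} → ℝ)}
    (hz : z ∈ C2 (Psi σ lam a L)) : z.1 ∈ konst lam a L ∧ z.2 = 0 := by
  unfold C2 at hz
  induction hz using Submodule.span_induction with
  | mem z hz =>
    obtain ⟨c, c', rfl⟩ := hz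
    refine ⟨⟨sy c c', ?_⟩, funext fun Γ => reg_const Γ.1 Γ.2 c c'⟩
    rw [Psi_fst, cu_sy]
  | zero => exact ⟨Submodule.zero_mem _, rfl⟩
  | add x y _ _ hx hy =>
    exact ⟨Submodule.add_mem _ hx.1 hy.1, by rw [Prod.snd_add, hx.2, hy.2, add_zero]⟩
  | smul q x _ hx => exact ⟨Submodule.smul_mem _ _ hx.1, by rw [Prod.smul_snd, hx.2, smul_zero]⟩

theorem C2_im : C2 (KQ.map 2 (algebraMap (CRing lam a) L)) ≤ konst lam a L := by
  unfold C2
  rw [Submodule.span_le]
  rintro z ⟨c, c', rfl⟩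
  rw [cu_sy]
  exact ⟨_, rfl⟩

/-- `K_2(K) ⊗ ℚ` in `K_2(CRing) ⊗ ℚ` has no regulators over `σ` -/
theorem reg_map_const (Γ : Torus (CRing lam a) 1) (hΓ : Over σ Γ) (κ : KQ K 2) :
    Γ.reg (KQ.map 2 ((fpol lam a).comp MvPolynomial.C) κ) = 0 := by
  have h1 : κ ∈ Submodule.span ℚ (Set.range (symb : (Fin 2 → Kˣ) → _)) := by
    rw [span_symb]
    trivial
  induction h1 using Submodule.span_induction with
  | mem z hz =>
    obtain ⟨u, rfl⟩ := hz
    rw [symb_eq_sy, map_sy]
    exact reg_const Γ hΓ _ _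
  | zero => rw [map_zero, map_zero]
  | add x y _ _ hx hy => rw [map_add, map_add, hx, hy, add_zero]
  | smul q x _ hx => rw [map_smul, map_smul, hx, smul_zero]

variable [Infinite K] [IsFractionRing (CRing lam a) L]

/-- the linear independence of the classes modulo `K_2(K)` -/
theorem indep {δ : Fin 2 → ℝ} (hl : lam ≠ 0) (ha : ∀ k, Function.Injective (a k))
    (hδ : ∀ k, 0 < δ k) (hsep : ∀ k i j, i ≠ j → 3 * δ k ≤ ‖σ (a k i) - σ (a k j)‖)
    (hlam : 2 < ‖σ lam‖ * ∏ k, δ k ^ (r k + 1)) (q : (∀ k, Fin (r k)) → ℚ)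
    (hq : ∑ i, q i • cl lam a L i ∈ konst lam a L) : q = 0 := by
  classical
  have hdom : IsDomain (CRing lam a) := dom hl ha
  obtain ⟨κ, hκ⟩ := hq
  set α : KQ (CRing lam a) 2 := ∑ i, q i • symb (ent lam a i) -
    KQ.map 2 ((fpol lam a).comp MvPolynomial.C) κ with hα
  have hcomp : ∀ κ : KQ K 2, KQ.map 2 (algebraMap (CRing lam a) L)
      (KQ.map 2 ((fpol lam a).comp MvPolynomial.C) κ) = KQ.map 2 (cst lam a L) κ := by
    intro κ
    have h1 : κ ∈ Submodule.span ℚ (Set.range (symb : (Fin 2 → Kˣ) → _)) := by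
      rw [span_symb]
      trivial
    induction h1 using Submodule.span_induction with
    | mem z hz =>
      obtain ⟨u, rfl⟩ := hz
      rw [symb_eq_sy, map_sy, map_sy, map_sy]
      rfl
    | zero => simp only [map_zero]
    | add x y _ _ hx hy => simp only [map_add, hx, hy]
    | smul q x _ hx => simp only [map_smul, hx]
  have h0 : KQ.map 2 (algebraMap (CRing lam a) L) α = 0 := by
    rw [hα, map_sub, hcomp, hκ, map_sum, sub_eq_zero]
    exact Finset.sum_congr rfl fun i _ => by rw [map_smul]; rfl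
  obtain ⟨h, hh, H⟩ := reg_eq_zero (d := 1) (L := L) h0
  obtain ⟨Γ, h1, h2, h3⟩ := exists_loops_avoid hl ha hδ hsep hlam hh
  have h4 : ∀ t, ∑ i, (q i : ℝ) * (Γ t).reg (symb (ent lam a i)) = 0 := by
    intro t
    have h5 := H (Γ t) (h2 t)
    rw [hα, map_sub, reg_map_const (Γ t) (h1 t), sub_zero, map_sum] at h5
    rw [← h5]
    refine Finset.sum_congr rfl fun i _ => ?_
    rw [map_smul]
    exact (Rat.smul_def _ _).symm
  set M : Matrix (∀ k, Fin (r k)) (∀ k, Fin (r k)) ℝ :=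
    Matrix.of fun t i => (Γ t).reg (symb (ent lam a i)) with hM
  have h6 : M.mulVec (fun i => (q i : ℝ)) = 0 := by
    funext t
    rw [Matrix.mulVec]
    show ∑ i, (Γ t).reg (symb (ent lam a i)) * (q i : ℝ) = 0
    rw [← h4 t]
    exact Finset.sum_congr rfl fun i _ => mul_comm _ _
  have h7 := Matrix.eq_zero_of_mulVec_eq_zero h3 h6
  funext i
  have h8 := congrFun h7 i
  simpa using h8

theorem vP_mem (hl : lam ≠ 0) (ha : ∀ k, Function.Injective (a k)) {z : KQ L 2}
    (hz : z ∈ UnramifiedOver (cst lam a L) 2) (k : Fin 2) (i : Fin (r k + 1)) :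
    z ∈ unitPart (vP hl ha k i L) 2 := by
  unfold UnramifiedOver at hz
  simp only [Submodule.mem_iInf] at hz
  exact hz _ (vP_surj hl ha k i L) fun c hc => vP_const hl ha k i L hc

/-- the image in the function field -/
theorem im_mem (hl : lam ≠ 0) (ha : ∀ k, Function.Injective (a k)) (α : KQ (CRing lam a) 2)
    (hα : KQ.map 2 (algebraMap (CRing lam a) L) α ∈ UnramifiedOver (cst lam a L) 2) :
    ∃ q : (∀ k, Fin (r k)) → ℚ, KQ.map 2 (algebraMap (CRing lam a) L) α -
      ∑ i, q i • cl lam a L i ∈ konst lam a L ∧ ∀ Γ : Torus (CRing lam a) 1, Over σ Γ →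
        Γ.reg α = ∑ i, (q i : ℝ) * Γ.reg (symb (ent lam a i)) := by
  classical
  have h := main_mem hl ha (Psi σ lam a L) (LinearMap.fst ℚ _ _) (fun α => rfl) alt_Psi α
    fun k i => vP_mem hl ha hα k i
  obtain ⟨τ, hτ, κ, hκ, e⟩ := Submodule.mem_sup.1 h
  have h1 := C0_le hτ
  rw [Submodule.mem_span_range_iff_exists_fun] at h1
  obtain ⟨q, hq⟩ := h1
  obtain ⟨k1, k2⟩ := C2_fst hκ
  have e1 := congrArg Prod.fst e
  have e2 := congrArg Prod.snd e
  rw [← hq, Prod.fst_add, Prod.fst_sum] at e1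
  rw [← hq, Prod.snd_add, Prod.snd_sum, k2, add_zero] at e2
  refine ⟨q, ?_, fun Γ hΓ => ?_⟩
  · rw [Psi_fst] at e1
    have e3 : KQ.map 2 (algebraMap (CRing lam a) L) α - ∑ i, q i • cl lam a L i = κ.1 := by
      rw [← e1]
      have : ∑ c, (q c • Psi σ lam a L (symb (ent lam a c))).1 = ∑ i, q i • cl lam a L i :=
        Finset.sum_congr rfl fun i _ => by rw [Prod.smul_fst]; rfl
      rw [this]
      abel
    rw [e3]
    exact k1
  · have e4 := congrFun e2 ⟨Γ, hΓ⟩
    rw [Psi_snd, Finset.sum_apply] at e4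
    rw [← e4]
    refine Finset.sum_congr rfl fun i _ => ?_
    rw [Prod.smul_snd, Pi.smul_apply, Psi_snd]
    exact Rat.smul_def _ _

omit [Infinite K] [IsFractionRing (CRing lam a) L] in
theorem konst_le : konst lam a L ≤ cusp lam a L ⊓ UnramifiedOver (cst lam a L) 2 := by
  rintro _ ⟨κ, rfl⟩
  have h1 : κ ∈ Submodule.span ℚ (Set.range (symb : (Fin 2 → Kˣ) → _)) := by
    rw [span_symb]
    trivial
  induction h1 using Submodule.span_induction with
  | mem z hz =>
    obtain ⟨u, rfl⟩ := hz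
    refine ⟨⟨sy (cu lam a (u 0)) (cu lam a (u 1)), ?_⟩, ?_⟩
    · rw [symb_eq_sy, cu_sy]
    · unfold UnramifiedOver
      simp only [SetLike.mem_coe, Submodule.mem_iInf]
      intro v _ hv
      rw [KQ.map_symb]
      exact Submodule.subset_span ⟨_, fun i => hv _ (u i).ne_zero, rfl⟩
  | zero => rw [map_zero]; exact Submodule.zero_mem _
  | add x y _ _ hx hy => rw [map_add]; exact Submodule.add_mem _ hx hy
  | smul q x _ hx => rw [map_smul]; exact Submodule.smul_mem _ _ hx

omit [Infinite K] [IsFractionRing (CRing lam a) L] in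
theorem cl_mem (hlam : IsIntegral ℤ lam) (ha : ∀ k i, IsIntegral ℤ (a k i))
    (i : ∀ k, Fin (r k)) : cl lam a L i ∈ Unramified L 2 :=
  Pool.Agent.TH826.MH.symb_mem_unramified (algebraMap (CRing lam a) L) hlam ha i

theorem unramified_le {K L : Type*} [Field K] [Field L] (ι : K →+* L) (n : ℕ) :
    Unramified L n ≤ UnramifiedOver ι n := by
  unfold Unramified UnramifiedOver
  refine le_iInf fun v => le_iInf fun hv => le_iInf fun _ => ?_
  exact iInf_le_of_le v (iInf_le _ hv)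

/-- the unramified part of the cuspidal symbols -/
theorem cusp_eq (hl : lam ≠ 0) (ha : ∀ k, Function.Injective (a k))
    (hlam : IsIntegral ℤ lam) (hai : ∀ k i, IsIntegral ℤ (a k i)) (σ : K →+* ℂ) :
    cusp lam a L ⊓ UnramifiedOver (cst lam a L) 2 =
      Submodule.span ℚ (Set.range (cl lam a L)) ⊔ konst lam a L := by
  refine le_antisymm ?_ (sup_le ?_ konst_le)
  · rintro _ ⟨⟨α, rfl⟩, hα⟩
    obtain ⟨q, hq, -⟩ := im_mem (σ := σ) hl ha α hα
    have e : KQ.map 2 (algebraMap (CRing lam a) L) α = ∑ i, q i • cl lam a L i +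
        (KQ.map 2 (algebraMap (CRing lam a) L) α - ∑ i, q i • cl lam a L i) := by abel
    rw [e]
    exact Submodule.add_mem_sup (Submodule.sum_mem _ fun i _ => Submodule.smul_mem _ _
      (Submodule.subset_span ⟨i, rfl⟩)) hq
  · rw [Submodule.span_le]
    rintro _ ⟨i, rfl⟩
    exact ⟨⟨_, rfl⟩, unramified_le _ _ (cl_mem hlam hai i)⟩

end main

end Pool.Agent.X232.CU
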