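import Pool.Agent.X232.CU.Inj
set_option autoImplicit false

/-!
Reduction of the symbols of units of the coordinate ring to the symbols with sum-zero exponents and
symbols with a constant entry.
-/

namespace Pool.Agent.X232.CU

open Pool.Agent.TH826.MK (KQ symb unitPart)

open Pool.Agent.TH826.MH (CRing fpol ent ux fx)

variable {K : Type*} [Field K] {r : Fin 2 → ℕ} {lam : K} {a : ∀ k, Fin (r k + 1) → K}
  {V : Type*} [AddCommGroup V] [Module ℚ V] (Ψ : KQ (CRing lam a) 2 →ₗ[ℚ] V)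

/-- alternating functionals -/
def Alt : Prop := ∀ f : (CRing lam a)ˣ, Ψ (sy f f) = 0

variable {Ψ}

theorem Alt.swap (h : Alt Ψ) (f g : (CRing lam a)ˣ) : Ψ (sy f g) = -Ψ (sy g f) := by
  have h1 := h (f * g)
  rw [sy_mul_left, sy_mul_right, sy_mul_right, map_add, map_add, map_add, h f, h g, zero_add,
    add_zero] at h1
  exact eq_neg_of_add_eq_zero_left h1

variable (Ψ)

/-- the span of the symbols with a constant entry -/
noncomputable def C1 : Submodule ℚ V :=
  Submodule.span ℚ {z | ∃ (c : Kˣ) (f : (CRing lam a)ˣ), z = Ψ (sy (cu lam a c) f)}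

/-- the span of the symbols with two constant entries -/
noncomputable def C2 : Submodule ℚ V :=
  Submodule.span ℚ {z | ∃ c c' : Kˣ, z = Ψ (sy (cu lam a c) (cu lam a c'))}

/-- the span of the symbols `{(x - a_i)/(x - a_i'), (y - b_j)/(y - b_j')}` -/
noncomputable def C0 : Submodule ℚ V :=
  Submodule.span ℚ {z | ∃ (i i' : Fin (r 0 + 1)) (j j' : Fin (r 1 + 1)),
    z = Ψ (sy (ux lam a 0 i / ux lam a 0 i') (ux lam a 1 j / ux lam a 1 j'))}

variable {Ψ}

theorem C1_left (c : Kˣ) (f : (CRing lam a)ˣ) : Ψ (sy (cu lam a c) f) ∈ C1 Ψ :=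
  Submodule.subset_span ⟨c, f, rfl⟩

theorem C1_right (h : Alt Ψ) (c : Kˣ) (f : (CRing lam a)ˣ) : Ψ (sy f (cu lam a c)) ∈ C1 Ψ := by
  rw [h.swap]
  exact (C1 Ψ).neg_mem (C1_left c f)

/-- membership can be tested on generators, first entry -/
theorem gen_left (hl : lam ≠ 0) (ha : ∀ k, Function.Injective (a k)) (W : Submodule ℚ V)
    (g : (CRing lam a)ˣ) (hc : ∀ c, Ψ (sy (cu lam a c) g) ∈ W)
    (h0 : ∀ i, Ψ (sy (ux lam a 0 i) g) ∈ W) (h1 : ∀ j, Ψ (sy (ux lam a 1 j) g) ∈ W)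
    (f : (CRing lam a)ˣ) : Ψ (sy f g) ∈ W := by
  obtain ⟨N, m, n, c, hN, h⟩ := units_thm hl ha f
  have h2 := congrArg (fun z => Ψ (sy z g)) h
  simp only [sy_mul_left, sy_prod_left, map_add, map_sum, sy_zpow_left, map_smul] at h2
  have h3 : Ψ (sy (f ^ N) g) = (N : ℚ) • Ψ (sy f g) := by
    have := sy_zpow_left f g N
    rw [zpow_natCast] at this
    rw [this, map_smul]
    norm_cast
  rw [h3] at h2
  have h4 : (N : ℚ) • Ψ (sy f g) ∈ W := by
    have h5 : (N : ℚ) • Ψ (sy f g) = Ψ (sy (cu lam a c) g) -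
        (∑ i, (m i : ℚ) • Ψ (sy (ux lam a 0 i) g) +
          ∑ j, (n j : ℚ) • Ψ (sy (ux lam a 1 j) g)) := by
      rw [← h2]
      abel
    rw [h5]
    exact W.sub_mem (hc c) (W.add_mem (W.sum_mem fun i _ => W.smul_mem _ (h0 i))
      (W.sum_mem fun j _ => W.smul_mem _ (h1 j)))
  have hN' : (N : ℚ) ≠ 0 := by exact_mod_cast hN.ne'
  have h6 := W.smul_mem ((N : ℚ)⁻¹) h4
  rwa [smul_smul, inv_mul_cancel₀ hN', one_smul] at h6

/-- the same for the second entry -/
theorem gen_right (hl : lam ≠ 0) (ha : ∀ k, Function.Injective (a k)) (W : Submodule ℚ V)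
    (g : (CRing lam a)ˣ) (hc : ∀ c, Ψ (sy g (cu lam a c)) ∈ W)
    (h0 : ∀ i, Ψ (sy g (ux lam a 0 i)) ∈ W) (h1 : ∀ j, Ψ (sy g (ux lam a 1 j)) ∈ W)
    (f : (CRing lam a)ˣ) : Ψ (sy g f) ∈ W := by
  obtain ⟨N, m, n, c, hN, h⟩ := units_thm hl ha f
  have h2 := congrArg (fun z => Ψ (sy g z)) h
  simp only [sy_mul_right, sy_prod_right, map_add, map_sum, sy_zpow_right, map_smul] at h2
  have h3 : Ψ (sy g (f ^ N)) = (N : ℚ) • Ψ (sy g f) := by
    have := sy_zpow_right g f N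
    rw [zpow_natCast] at this
    rw [this, map_smul]
    norm_cast
  rw [h3] at h2
  have h4 : (N : ℚ) • Ψ (sy g f) ∈ W := by
    have h5 : (N : ℚ) • Ψ (sy g f) = Ψ (sy g (cu lam a c)) -
        (∑ i, (m i : ℚ) • Ψ (sy g (ux lam a 0 i)) +
          ∑ j, (n j : ℚ) • Ψ (sy g (ux lam a 1 j))) := by
      rw [← h2]
      abel
    rw [h5]
    exact W.sub_mem (hc c) (W.add_mem (W.sum_mem fun i _ => W.smul_mem _ (h0 i))
      (W.sum_mem fun j _ => W.smul_mem _ (h1 j)))
  have hN' : (N : ℚ) ≠ 0 := by exact_mod_cast hN.ne'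
  have h6 := W.smul_mem ((N : ℚ)⁻¹) h4
  rwa [smul_smul, inv_mul_cancel₀ hN', one_smul] at h6

/-- two generators with the same variable -/
theorem same_var (h : Alt Ψ) (ha : ∀ k, Function.Injective (a k)) (k : Fin 2)
    (i j : Fin (r k + 1)) : Ψ (sy (ux lam a k i) (ux lam a k j)) ∈ C1 Ψ := by
  by_cases hij : i = j
  · rw [hij, h]
    exact Submodule.zero_mem _
  · have hne : a k j - a k i ≠ 0 := sub_ne_zero.2 fun e => hij (ha k e).symm
    set δ : Kˣ := Units.mk0 _ hne with hδ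
    have hst : sy (ux lam a k i / cu lam a δ) (-(ux lam a k j) / cu lam a δ) = 0 := by
      refine sy_steinberg ?_
      have h1 : (cu lam a δ : CRing lam a) = fx lam a k (a k i) - fx lam a k (a k j) := by
        rw [coe_cu, hδ, Units.val_mk0]
        unfold fx
        simp only [map_sub]
        ring
      have h2 : ((ux lam a k i / cu lam a δ : (CRing lam a)ˣ) : CRing lam a) *
          (cu lam a δ : CRing lam a) = fx lam a k (a k i) := by
        rw [← Units.val_mul, div_mul_cancel]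
        rfl
      have h3 : ((-(ux lam a k j) / cu lam a δ : (CRing lam a)ˣ) : CRing lam a) *
          (cu lam a δ : CRing lam a) = -fx lam a k (a k j) := by
        rw [← Units.val_mul, div_mul_cancel]
        rfl
      have h4 : IsUnit (cu lam a δ : CRing lam a) := Units.isUnit _
      refine h4.mul_right_cancel ?_
      rw [add_mul, h2, h3, one_mul, h1]
      ring
    rw [sy_div_left, sy_div_right, sy_div_right, sy_neg_right, sy_neg_right] at hst
    have h5 : Ψ (sy (ux lam a k i) (ux lam a k j)) = Ψ (sy (ux lam a k i) (cu lam a δ)) +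
        Ψ (sy (cu lam a δ) (ux lam a k j)) - Ψ (sy (cu lam a δ) (cu lam a δ)) := by
      have h6 := congrArg Ψ hst
      rw [map_sub, map_sub, map_sub, map_zero] at h6
      have : Ψ (sy (ux lam a k i) (ux lam a k j)) - (Ψ (sy (ux lam a k i) (cu lam a δ)) +
        Ψ (sy (cu lam a δ) (ux lam a k j)) - Ψ (sy (cu lam a δ) (cu lam a δ))) = 0 := by
        rw [← h6]
        abel
      exact sub_eq_zero.1 this
    rw [h5]
    exact (C1 Ψ).sub_mem ((C1 Ψ).add_mem (C1_right h δ _) (C1_left δ _)) (C1_left δ _)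

/-- the products of all generators of one kind -/
noncomputable def pr (lam : K) (a : ∀ k, Fin (r k + 1) → K) (k : Fin 2) : (CRing lam a)ˣ :=
  ∏ i, ux lam a k i

theorem pr_zero (hl : lam ≠ 0) : pr lam a 0 = (cu lam a (Units.mk0 lam hl) * pr lam a 1)⁻¹ := by
  rw [eq_inv_iff_mul_eq_one]
  have h := rel (a := a) hl
  unfold pr
  rw [← h, mul_left_comm]

theorem pr_one (hl : lam ≠ 0) : pr lam a 1 = (cu lam a (Units.mk0 lam hl) * pr lam a 0)⁻¹ := by
  rw [eq_inv_iff_mul_eq_one]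
  have h := rel (a := a) hl
  unfold pr
  rw [← h, mul_left_comm, mul_comm (∏ i, ux lam a 1 i)]

theorem pr_left (h : Alt Ψ) (hl : lam ≠ 0) (ha : ∀ k, Function.Injective (a k))
    (j : Fin (r 1 + 1)) : Ψ (sy (pr lam a 0) (ux lam a 1 j)) ∈ C1 Ψ := by
  rw [pr_zero hl, sy_inv_left, sy_mul_left, map_neg, map_add]
  unfold pr
  rw [sy_prod_left, map_sum]
  exact (C1 Ψ).neg_mem ((C1 Ψ).add_mem (C1_left _ _) ((C1 Ψ).sum_mem fun i _ =>
    same_var h ha 1 i j))

theorem pr_right (h : Alt Ψ) (hl : lam ≠ 0) (ha : ∀ k, Function.Injective (a k))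
    (i : Fin (r 0 + 1)) : Ψ (sy (ux lam a 0 i) (pr lam a 1)) ∈ C1 Ψ := by
  rw [pr_one hl, sy_inv_right, sy_mul_right, map_neg, map_add]
  unfold pr
  rw [sy_prod_right, map_sum]
  exact (C1 Ψ).neg_mem ((C1 Ψ).add_mem (C1_right h _ _) ((C1 Ψ).sum_mem fun j _ =>
    same_var h ha 0 i j))

/-- two generators with different variables -/
theorem diff_var (h : Alt Ψ) (hl : lam ≠ 0) (ha : ∀ k, Function.Injective (a k))
    (i : Fin (r 0 + 1)) (j : Fin (r 1 + 1)) :
    Ψ (sy (ux lam a 0 i) (ux lam a 1 j)) ∈ C0 Ψ ⊔ C1 Ψ := by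
  set W := C0 Ψ ⊔ C1 Ψ with hW
  have hS : ∑ i' : Fin (r 0 + 1), ∑ j' : Fin (r 1 + 1),
      Ψ (sy (ux lam a 0 i / ux lam a 0 i') (ux lam a 1 j / ux lam a 1 j')) =
      (((r 0 + 1 : ℕ) * (r 1 + 1 : ℕ) : ℚ)) • Ψ (sy (ux lam a 0 i) (ux lam a 1 j)) -
        ((r 0 + 1 : ℕ) : ℚ) • Ψ (sy (ux lam a 0 i) (pr lam a 1)) -
        ((r 1 + 1 : ℕ) : ℚ) • Ψ (sy (pr lam a 0) (ux lam a 1 j)) +
        Ψ (sy (pr lam a 0) (pr lam a 1)) := by
    have e1 : Ψ (sy (ux lam a 0 i) (pr lam a 1)) =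
        ∑ j', Ψ (sy (ux lam a 0 i) (ux lam a 1 j')) := by
      unfold pr
      rw [sy_prod_right, map_sum]
    have e2 : Ψ (sy (pr lam a 0) (ux lam a 1 j)) =
        ∑ i', Ψ (sy (ux lam a 0 i') (ux lam a 1 j)) := by
      unfold pr
      rw [sy_prod_left, map_sum]
    have e3 : Ψ (sy (pr lam a 0) (pr lam a 1)) =
        ∑ i', ∑ j', Ψ (sy (ux lam a 0 i') (ux lam a 1 j')) := by
      unfold pr
      rw [sy_prod_left, map_sum]
      refine Finset.sum_congr rfl fun i' _ => ?_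
      rw [sy_prod_right, map_sum]
    simp only [sy_div_left, sy_div_right, map_sub]
    simp only [Finset.sum_sub_distrib, Finset.sum_const, Finset.card_univ, Fintype.card_fin]
    rw [← e3, ← e1]
    simp only [← Nat.cast_smul_eq_nsmul ℚ]
    rw [← Finset.smul_sum, ← e2, smul_smul]
    abel
  have hmem : ∑ i' : Fin (r 0 + 1), ∑ j' : Fin (r 1 + 1),
      Ψ (sy (ux lam a 0 i / ux lam a 0 i') (ux lam a 1 j / ux lam a 1 j')) ∈ W :=
    W.sum_mem fun i' _ => W.sum_mem fun j' _ =>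
      (le_sup_left : C0 Ψ ≤ W) (Submodule.subset_span ⟨i, i', j, j', rfl⟩)
  have hC : C1 Ψ ≤ W := le_sup_right
  have h1 := hC (pr_right h hl ha i)
  have h2 := hC (pr_left h hl ha j)
  have h3 : Ψ (sy (pr lam a 0) (pr lam a 1)) ∈ W := by
    refine hC ?_
    have e3 : Ψ (sy (pr lam a 0) (pr lam a 1)) =
        ∑ i', Ψ (sy (ux lam a 0 i') (pr lam a 1)) := by
      conv_lhs => rw [pr, sy_prod_left, map_sum]
    rw [e3]
    exact (C1 Ψ).sum_mem fun i' _ => pr_right h hl ha i'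
  have h4 : (((r 0 + 1 : ℕ) * (r 1 + 1 : ℕ) : ℚ)) • Ψ (sy (ux lam a 0 i) (ux lam a 1 j)) ∈ W := by
    have e : (((r 0 + 1 : ℕ) * (r 1 + 1 : ℕ) : ℚ)) • Ψ (sy (ux lam a 0 i) (ux lam a 1 j)) =
        (∑ i' : Fin (r 0 + 1), ∑ j' : Fin (r 1 + 1),
          Ψ (sy (ux lam a 0 i / ux lam a 0 i') (ux lam a 1 j / ux lam a 1 j'))) +
        ((r 0 + 1 : ℕ) : ℚ) • Ψ (sy (ux lam a 0 i) (pr lam a 1)) +
        ((r 1 + 1 : ℕ) : ℚ) • Ψ (sy (pr lam a 0) (ux lam a 1 j)) -
        Ψ (sy (pr lam a 0) (pr lam a 1)) := by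
      rw [hS]
      abel
    rw [e]
    exact W.sub_mem (W.add_mem (W.add_mem hmem (W.smul_mem _ h1)) (W.smul_mem _ h2)) h3
  have hne : (((r 0 + 1 : ℕ) * (r 1 + 1 : ℕ) : ℚ)) ≠ 0 := by
    push_cast
    positivity
  have h6 := W.smul_mem ((((r 0 + 1 : ℕ) * (r 1 + 1 : ℕ) : ℚ))⁻¹) h4
  rwa [smul_smul, inv_mul_cancel₀ hne, one_smul] at h6

/-- All symbols of units. -/
theorem all_mem (h : Alt Ψ) (hl : lam ≠ 0) (ha : ∀ k, Function.Injective (a k))
    (α : KQ (CRing lam a) 2) : Ψ α ∈ C0 Ψ ⊔ C1 Ψ := by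
  set W := C0 Ψ ⊔ C1 Ψ with hW
  have hC : C1 Ψ ≤ W := le_sup_right
  have key : ∀ f g : (CRing lam a)ˣ, Ψ (sy f g) ∈ W := by
    intro f g
    refine gen_left hl ha W g (fun c => hC (C1_left c g)) (fun i => ?_) (fun j => ?_) f
    · refine gen_right hl ha W _ (fun c => hC (C1_right h c _)) (fun i' => ?_) (fun j => ?_) g
      · exact hC (same_var h ha 0 i i')
      · exact diff_var h hl ha i j
    · refine gen_right hl ha W _ (fun c => hC (C1_right h c _)) (fun i => ?_) (fun j' => ?_) g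
      · rw [h.swap]
        exact W.neg_mem (diff_var h hl ha i j)
      · exact hC (same_var h ha 1 j j')
  have h1 : α ∈ Submodule.span ℚ (Set.range (symb : (Fin 2 → (CRing lam a)ˣ) → _)) := by
    rw [span_symb]
    trivial
  induction h1 using Submodule.span_induction with
  | mem z hz =>
    obtain ⟨u, rfl⟩ := hz
    rw [symb_eq_sy]
    exact key _ _
  | zero => rw [map_zero]; exact W.zero_mem
  | add x y _ _ hx hy => rw [map_add]; exact W.add_mem hx hy
  | smul q x _ hx => rw [map_smul]; exact W.smul_mem _ hx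

/-- the basic symbols span `C0` -/
theorem C0_le : C0 Ψ ≤ Submodule.span ℚ (Set.range fun i : (∀ k, Fin (r k)) =>
    Ψ (symb (ent lam a i))) := by
  set W := Submodule.span ℚ (Set.range fun i : (∀ k, Fin (r k)) => Ψ (symb (ent lam a i)))
    with hW
  -- telescoping in one variable
  have tele : ∀ (k : Fin 2) (φ : (CRing lam a)ˣ → V)
      (_ : ∀ f g, φ (f / g) = φ f - φ g) (_ : ∀ l : Fin (r k),
        φ (ux lam a k l.castSucc / ux lam a k l.succ) ∈ W) (i i' : Fin (r k + 1)),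
      φ (ux lam a k i / ux lam a k i') ∈ W := by
    intro k φ hφ hs
    have h0 : ∀ i : Fin (r k + 1), φ (ux lam a k 0) - φ (ux lam a k i) ∈ W := by
      intro i
      induction i using Fin.induction with
      | zero => rw [sub_self]; exact W.zero_mem
      | succ i ih =>
        have h1 := hs i
        rw [hφ] at h1
        have h2 := W.add_mem ih h1
        rwa [sub_add_sub_cancel] at h2
    intro i i'
    rw [hφ]
    have h1 := W.sub_mem (h0 i') (h0 i)
    rwa [sub_sub_sub_cancel_left] at h1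
  unfold C0
  rw [Submodule.span_le]
  rintro z ⟨i, i', j, j', rfl⟩
  refine tele 0 (fun f => Ψ (sy f (ux lam a 1 j / ux lam a 1 j')))
    (fun f g => by rw [sy_div_left, map_sub]) (fun l => ?_) i i'
  refine tele 1 (fun f => Ψ (sy (ux lam a 0 l.castSucc / ux lam a 0 l.succ) f))
    (fun f g => by rw [sy_div_right, map_sub]) (fun m => ?_) j j'
  refine Submodule.subset_span ⟨Fin.cons l (Fin.cons m finZeroElim), ?_⟩
  show Ψ (symb (ent lam a _)) = _
  rw [symb_eq_sy]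
  rfl

end Pool.Agent.X232.CU
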