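import Pool.Agent.X232.CU.Root
set_option autoImplicit false

/-!
Functions on the curve `λ ∏_i (x - a_i) ∏_j (y - b_j) = 1` without poles at the places at infinity are
constant.
-/

namespace Pool.Agent.X232.CU

open Pool.Agent.TH826.MH (CRing fpol fx ux eqn coe_ux prod_eq_one)

open Polynomial

open scoped Polynomial.Bivariate

section swap

variable {K : Type*} [Field K]

theorem coeff_swap (P : K[X][Y]) (i j : ℕ) :
    ((Bivariate.swap P).coeff i).coeff j = (P.coeff j).coeff i := by
  induction P using Polynomial.induction_on' with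
  | add p q hp hq => rw [map_add, coeff_add, coeff_add, hp, hq, coeff_add, coeff_add]
  | monomial n f =>
    induction f using Polynomial.induction_on' with
    | add p q hp hq => rw [map_add, map_add, coeff_add, coeff_add, hp, hq, coeff_add, coeff_add]
    | monomial m c =>
      rw [Bivariate.swap_monomial_monomial, coeff_monomial, coeff_monomial]
      by_cases h1 : m = i
      · by_cases h2 : n = j
        · simp [h1, h2]
        · simp [h1, h2, coeff_monomial]
      · by_cases h2 : n = j
        · simp [h1, h2, coeff_monomial]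
        · simp [h1, h2]

theorem prod_dvd {m : ℕ} {c : Fin (m + 1) → K} (hc : Function.Injective c) {p : K[X]}
    (h : ∀ i, p.eval (c i) = 0) : ∏ i, (X - C (c i)) ∣ p := by
  refine Finset.prod_dvd_of_coprime ?_ fun i _ => dvd_iff_isRoot.2 (h i)
  intro i _ j _ hij
  exact pairwise_coprime_X_sub_C hc hij

theorem exists_eval_ne {m : ℕ} {c : Fin (m + 1) → K} (hc : Function.Injective c) {p : K[X]}
    (hp : p ≠ 0) (hd : p.natDegree ≤ m) : ∃ i, p.eval (c i) ≠ 0 := by
  by_contra hcon
  push Not at hcon
  have h1 := natDegree_le_of_dvd (prod_dvd hc hcon) hp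
  rw [natDegree_prod_of_monic _ _ fun i _ => monic_X_sub_C _] at h1
  simp at h1
  omega

end swap

section ev

variable {K : Type*} [Field K] {r : Fin 2 → ℕ} {lam : K} {a : ∀ k, Fin (r k + 1) → K}

/-- polynomials in the coordinate `x_k` -/
noncomputable def phi (lam : K) (a : ∀ k, Fin (r k + 1) → K) (k : Fin 2) : K[X] →+* CRing lam a :=
  eval₂RingHom ((fpol lam a).comp MvPolynomial.C) (fpol lam a (MvPolynomial.X k))

/-- polynomials in the coordinates `x_k` (inner variable) and `x_{k+1}` (outer variable) -/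
noncomputable def ev (lam : K) (a : ∀ k, Fin (r k + 1) → K) (k : Fin 2) : K[X][Y] →+* CRing lam a :=
  eval₂RingHom (phi lam a k) (fpol lam a (MvPolynomial.X (k + 1)))

theorem phi_C (k : Fin 2) (c : K) : phi lam a k (C c) = fpol lam a (MvPolynomial.C c) := by
  unfold phi
  simp

theorem phi_X (k : Fin 2) : phi lam a k X = fpol lam a (MvPolynomial.X k) := by
  unfold phi
  simp

theorem ev_C (k : Fin 2) (p : K[X]) : ev lam a k (C p) = phi lam a k p := by
  unfold ev
  simp

theorem ev_X (k : Fin 2) : ev lam a k X = fpol lam a (MvPolynomial.X (k + 1)) := by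
  unfold ev
  simp

theorem ev_surj (k : Fin 2) : Function.Surjective (ev lam a k) := by
  have key : ∀ p : MvPolynomial (Fin 2) K, ∃ P : K[X][Y], ev lam a k P = fpol lam a p := by
    intro p
    induction p using MvPolynomial.induction_on with
    | C c => exact ⟨C (C c), by rw [ev_C, phi_C]⟩
    | add p q hp hq =>
      obtain ⟨P, hP⟩ := hp
      obtain ⟨Q, hQ⟩ := hq
      exact ⟨P + Q, by rw [map_add, map_add, hP, hQ]⟩
    | mul_X p m hp =>
      obtain ⟨P, hP⟩ := hp
      rcases eq_or k m with rfl | rfl
      · exact ⟨P * C X, by rw [map_mul, map_mul, hP, ev_C, phi_X]⟩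
      · exact ⟨P * X, by rw [map_mul, map_mul, hP, ev_X]⟩
  intro f
  obtain ⟨p, hp⟩ := Ideal.Quotient.mk_surjective f
  obtain ⟨P, hP⟩ := key p
  exact ⟨P, hP.trans hp⟩

theorem ev_swap (k : Fin 2) (P : K[X][Y]) :
    ev lam a (k + 1) (Bivariate.swap P) = ev lam a k P := by
  have h : (ev lam a (k + 1)).comp (Bivariate.swap : K[X][Y] ≃ₐ[K] K[X][Y]).toAlgHom.toRingHom =
      ev lam a k := by
    refine ringHom_ext' (ringHom_ext' (RingHom.ext fun c => ?_) ?_) ?_
    · show ev lam a (k + 1) (Bivariate.swap (C (C c))) = ev lam a k (C (C c))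
      rw [Bivariate.swap_C_C, ev_C, ev_C, phi_C, phi_C]
    · show ev lam a (k + 1) (Bivariate.swap (C X)) = ev lam a k (C X)
      rw [Bivariate.swap_X, ev_X, ev_C, phi_X, add_one_add_one]
    · show ev lam a (k + 1) (Bivariate.swap X) = ev lam a k X
      rw [Bivariate.swap_Y, ev_X, ev_C, phi_X]
  exact congrArg (fun g => g P) h

variable (hl : lam ≠ 0) (ha : ∀ k, Function.Injective (a k)) (k : Fin 2) (i : Fin (r k + 1))

theorem pl_phi (p : K[X]) : pl hl ha k i (phi lam a k p) =
    HahnSeries.ofPowerSeries ℤ K (p.eval₂ PowerSeries.C (xi hl ha k i)) := by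
  have h : (pl hl ha k i).comp (phi lam a k) = (HahnSeries.ofPowerSeries ℤ K).comp
      (eval₂RingHom PowerSeries.C (xi hl ha k i)) := by
    refine ringHom_ext' (RingHom.ext fun c => ?_) ?_
    · show pl hl ha k i (phi lam a k (C c)) = HahnSeries.ofPowerSeries ℤ K
        ((C c : K[X]).eval₂ PowerSeries.C (xi hl ha k i))
      rw [phi_C, pl_C, eval₂_C, HahnSeries.ofPowerSeries_C]
    · show pl hl ha k i (phi lam a k X) = HahnSeries.ofPowerSeries ℤ K
        ((X : K[X]).eval₂ PowerSeries.C (xi hl ha k i))
      rw [phi_X, pl_X_self, eval₂_X]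
  exact congrArg (fun g => g p) h

theorem const_eval (p : K[X]) :
    PowerSeries.constantCoeff (p.eval₂ PowerSeries.C (xi hl ha k i)) = p.eval (a k i) := by
  rw [hom_eval₂, xi_const]
  have : (PowerSeries.constantCoeff : PowerSeries K →+* K).comp PowerSeries.C = RingHom.id K := by
    ext c
    simp
  rw [this]
  rfl

/-- the order of a polynomial in the coordinates at the place -/
theorem order_ev (P : K[X][Y]) (h : P.leadingCoeff.eval (a k i) ≠ 0) :
    (pl hl ha k i (ev lam a k P)).order = -(P.natDegree : ℤ) := by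
  set D := P.natDegree with hD
  have h3 : ti K * HahnSeries.single 1 (1 : K) = 1 := by
    unfold ti
    rw [HahnSeries.single_mul_single]
    simp
  have hx : HahnSeries.ofPowerSeries ℤ K PowerSeries.X = HahnSeries.single 1 (1 : K) :=
    HahnSeries.ofPowerSeries_X
  set q : PowerSeries K := ∑ m ∈ Finset.range (D + 1),
    (P.coeff m).eval₂ PowerSeries.C (xi hl ha k i) * PowerSeries.X ^ (D - m) with hq
  have e : pl hl ha k i (ev lam a k P) = ti K ^ D * HahnSeries.ofPowerSeries ℤ K q := by
    have e1 : ev lam a k P = ∑ m ∈ Finset.range (D + 1),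
        phi lam a k (P.coeff m) * fpol lam a (MvPolynomial.X (k + 1)) ^ m := by
      unfold ev
      rw [coe_eval₂RingHom, eval₂_eq_sum_range]
    rw [e1, map_sum, hq, map_sum, Finset.mul_sum]
    refine Finset.sum_congr rfl fun m hm => ?_
    have hmD : m ≤ D := Nat.lt_succ_iff.1 (Finset.mem_range.1 hm)
    rw [map_mul, map_pow, pl_phi, pl_X_other, map_mul, map_pow, hx]
    have e2 : ti K ^ D * HahnSeries.single 1 (1 : K) ^ (D - m) = ti K ^ m := by
      have : D = m + (D - m) := by omega
      conv_lhs => rw [this, pow_add]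
      rw [show m + (D - m) - m = D - m by omega, mul_assoc, ← mul_pow, h3, one_pow, mul_one]
    rw [← e2]
    ring
  have hq0 : PowerSeries.constantCoeff q ≠ 0 := by
    rw [hq, map_sum, Finset.sum_range_succ, Finset.sum_eq_zero]
    · rw [zero_add, Nat.sub_self, pow_zero, mul_one, const_eval]
      exact h
    · intro m hm
      have := Finset.mem_range.1 hm
      rw [map_mul, map_pow, PowerSeries.constantCoeff_X, zero_pow (by omega), mul_zero]
  have hq1 : HahnSeries.ofPowerSeries ℤ K q ≠ 0 := by
    rw [Ne, map_eq_zero_iff _ HahnSeries.ofPowerSeries_injective]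
    intro h0
    rw [h0, map_zero] at hq0
    exact hq0 rfl
  rw [e, HahnSeries.order_mul (pow_ne_zero _ ti_ne_zero) hq1, od_coe hq0, HahnSeries.order_pow,
    order_ti]
  simp

end ev

section const

variable {K : Type*} [Field K] {r : Fin 2 → ℕ} {lam : K} {a : ∀ k, Fin (r k + 1) → K}

theorem phi_prod (k : Fin 2) :
    phi lam a k (∏ i, (X - C (a k i))) = ∏ i, fx lam a k (a k i) := by
  rw [map_prod]
  refine Finset.prod_congr rfl fun i _ => ?_
  rw [map_sub, phi_X, phi_C]
  unfold fx
  rw [map_sub]

/-- Functions without poles at the places at infinity are constant. -/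
theorem const_of_order (hl : lam ≠ 0) (ha : ∀ k, Function.Injective (a k)) (f : CRing lam a)
    (h : ∀ k i, 0 ≤ (pl hl ha k i f).order) : ∃ c : K, f = fpol lam a (MvPolynomial.C c) := by
  classical
  -- a representation of minimal degree
  have hex : ∃ D : ℕ, ∃ P : K[X][Y], ev lam a 0 P = f ∧ P.natDegree = D := by
    obtain ⟨P, hP⟩ := ev_surj (lam := lam) (a := a) 0 f
    exact ⟨_, P, hP, rfl⟩
  obtain ⟨P, hP, hPD⟩ := Nat.find_spec hex
  have hmin : ∀ Q : K[X][Y], ev lam a 0 Q = f → P.natDegree ≤ Q.natDegree := by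
    intro Q hQ
    rw [hPD]
    exact Nat.find_min' hex ⟨Q, hQ, rfl⟩
  by_cases hP0 : P = 0
  · refine ⟨0, ?_⟩
    rw [← hP, hP0]
    simp
  -- the order at the places of the first kind
  have hord : ∀ i, P.leadingCoeff.eval (a 0 i) ≠ 0 → P.natDegree = 0 := by
    intro i hi
    have h1 := order_ev hl ha 0 i P hi
    rw [hP] at h1
    have h2 := h 0 i
    omega
  -- the degree is small
  have hD : P.natDegree ≤ r 1 := by
    by_contra hcon
    push Not at hcon
    have hz : ∀ i, P.leadingCoeff.eval (a 0 i) = 0 := by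
      intro i
      by_contra hi
      have := hord i hi
      omega
    obtain ⟨p', hp'⟩ := prod_dvd (ha 0) hz
    set A1 : K[X][Y] := ∏ j, (X - C (C (a 1 j))) with hA1
    have hA1m : A1.Monic := monic_prod_of_monic _ _ fun i _ => monic_X_sub_C _
    have hA1d : A1.natDegree = r 1 + 1 := by
      rw [hA1, natDegree_prod_of_monic _ _ fun i _ => monic_X_sub_C _]
      simp
    set e : ℕ := P.natDegree - (r 1 + 1) with he
    set Q : K[X][Y] := P - C P.leadingCoeff * (X ^ e * A1) + C (C lam⁻¹ * p') * X ^ e with hQ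
    have hevA1 : ev lam a 0 A1 = ∏ j, fx lam a 1 (a 1 j) := by
      rw [hA1, map_prod]
      refine Finset.prod_congr rfl fun j _ => ?_
      rw [map_sub, ev_X, ev_C, phi_C]
      unfold fx
      rw [map_sub]
      rfl
    have hQf : ev lam a 0 Q = f := by
      have h1 := prod_eq_one lam a
      rw [Fin.prod_univ_two] at h1
      have h2 : fpol lam a (MvPolynomial.C lam⁻¹) * fpol lam a (MvPolynomial.C lam) = 1 := by
        rw [← map_mul, ← map_mul, inv_mul_cancel₀ hl, map_one, map_one]
      have h3 : (∏ i, fx lam a 0 (a 0 i)) * (∏ i, fx lam a 1 (a 1 i)) =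
          fpol lam a (MvPolynomial.C lam⁻¹) := by
        linear_combination (fpol lam a (MvPolynomial.C lam⁻¹)) * h1 -
          ((∏ i, fx lam a 0 (a 0 i)) * (∏ i, fx lam a 1 (a 1 i))) * h2
      rw [hQ, map_add, map_sub, map_mul, map_mul, map_mul, hP, hevA1, ev_C, ev_C, hp', map_mul,
        map_mul, phi_prod, phi_C]
      linear_combination (-(phi lam a 0 p' * ev lam a 0 (X ^ e))) * h3
    have hlt : Q.natDegree < P.natDegree := by
      have hd1 : (C P.leadingCoeff * (X ^ e * A1)).natDegree = P.natDegree := by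
        rw [natDegree_C_mul (leadingCoeff_ne_zero.2 hP0),
          (monic_X_pow e).natDegree_mul hA1m, natDegree_X_pow, hA1d]
        omega
      have hl1 : (C P.leadingCoeff * (X ^ e * A1)).leadingCoeff = P.leadingCoeff := by
        rw [leadingCoeff_mul, leadingCoeff_C, ((monic_X_pow e).mul hA1m).leadingCoeff, mul_one]
      have hpos : 0 < P.natDegree := by omega
      have hsub : (P - C P.leadingCoeff * (X ^ e * A1)).natDegree < P.natDegree := by
        have hdeg : P.degree = (C P.leadingCoeff * (X ^ e * A1)).degree := by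
          rw [degree_eq_natDegree hP0, degree_eq_natDegree, hd1]
          rw [← leadingCoeff_ne_zero, hl1]
          exact leadingCoeff_ne_zero.2 hP0
        have h1 := degree_sub_lt_left hdeg hP0 hl1.symm
        rcases eq_or_ne (P - C P.leadingCoeff * (X ^ e * A1)) 0 with h0 | h0
        · rw [h0, natDegree_zero]
          exact hpos
        · exact natDegree_lt_natDegree h0 h1
      have h2 : (C (C lam⁻¹ * p') * X ^ e : K[X][Y]).natDegree ≤ e := natDegree_C_mul_X_pow_le _ _
      refine lt_of_le_of_lt (natDegree_add_le _ _) (max_lt hsub ?_)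
      omega
    exact absurd (hmin Q hQf) (not_le.2 hlt)
  -- the other direction
  set S : K[X][Y] := Bivariate.swap P with hS
  have hS0 : S ≠ 0 := by
    intro h0
    apply hP0
    have := congrArg Bivariate.swap h0
    rwa [hS, Bivariate.swap_swap_apply, map_zero] at this
  have hSf : ev lam a 1 S = f := by
    have := ev_swap (lam := lam) (a := a) 0 P
    rw [zero_add] at this
    rw [hS, this, hP]
  have hSl : S.leadingCoeff.natDegree ≤ r 1 := by
    refine natDegree_le_iff_coeff_eq_zero.2 fun j hj => ?_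
    unfold leadingCoeff
    rw [hS, coeff_swap, coeff_eq_zero_of_natDegree_lt (p := P) (by omega), coeff_zero]
  obtain ⟨j, hj⟩ := exists_eval_ne (ha 1) (leadingCoeff_ne_zero.2 hS0) hSl
  have hSd : S.natDegree = 0 := by
    have h1 := order_ev hl ha 1 j S hj
    rw [hSf] at h1
    have h2 := h 1 j
    omega
  have hPc : ∀ m, P.coeff m = C ((P.coeff m).coeff 0) := by
    intro m
    ext l
    rw [coeff_C]
    split_ifs with hl0
    · rw [hl0]
    · rw [← coeff_swap, ← hS, coeff_eq_zero_of_natDegree_lt (p := S) (by omega), coeff_zero]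
  have hPd : P.natDegree = 0 := by
    refine hord 0 ?_
    unfold leadingCoeff
    rw [hPc, eval_C]
    intro h0
    have h1 := hPc P.natDegree
    rw [h0, C_0] at h1
    exact leadingCoeff_ne_zero.2 hP0 h1
  refine ⟨(P.coeff 0).coeff 0, ?_⟩
  rw [← hP, eq_C_of_natDegree_eq_zero hPd, ev_C]
  conv_lhs => rw [hPc 0, phi_C]
  simp

end const

end Pool.Agent.X232.CU
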