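import Pool.Agent.X232.CU.Sym
set_option autoImplicit false

/-!
The tame symbol of the field of Laurent series on `K_2 ⊗ ℚ`, and its kernel.
-/

namespace Pool.Agent.X232.CU

open Pool.Agent.TH826.MK (KQ symb unitPart Unramified)

open scoped WithZero

section one

variable (K : Type*) [Field K]

/-- the class of a unit in `K_1 ⊗ ℚ` -/
noncomputable def s1 (c : Kˣ) : KQ K 1 := symb fun _ => c

variable {K}

theorem s1_mul (c c' : Kˣ) : s1 K (c * c') = s1 K c + s1 K c' := by
  have h := Pool.Agent.TH826.MK.symb_update_mul (fun _ : Fin 1 => (1 : Kˣ)) 0 c c'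
  have e : ∀ x : Kˣ, Function.update (fun _ : Fin 1 => (1 : Kˣ)) 0 x = fun _ => x := by
    intro x
    funext i
    have : i = 0 := Subsingleton.elim _ _
    subst this
    simp
  rw [e, e, e] at h
  exact h

theorem s1_one : s1 K 1 = 0 := by
  have h := s1_mul (1 : Kˣ) 1
  rw [mul_one] at h
  simpa using h

theorem s1_neg (c : Kˣ) : s1 K (-c) = s1 K c := by
  have h : s1 K (-1) = 0 := by
    have h1 := s1_mul (-1 : Kˣ) (-1)
    have h2 : (-1 : Kˣ) * -1 = 1 := by simp
    rw [h2, s1_one] at h1
    have h3 : (2 : ℚ) • s1 K (-1) = 0 := by rw [two_smul]; exact h1.symm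
    exact (smul_eq_zero.1 h3).resolve_left two_ne_zero
  rw [← neg_one_mul c, s1_mul, h, zero_add]

end one

section tame

variable {K : Type*} [Field K]

/-- the order of a nonzero Laurent series -/
noncomputable def od (f : (HahnSeries ℤ K)ˣ) : ℤ := (f : HahnSeries ℤ K).order

/-- the leading coefficient of a nonzero Laurent series -/
noncomputable def lc (f : (HahnSeries ℤ K)ˣ) : Kˣ :=
  Units.mk0 (f : HahnSeries ℤ K).leadingCoeff (HahnSeries.leadingCoeff_ne_zero.2 f.ne_zero)

theorem od_mul (f g : (HahnSeries ℤ K)ˣ) : od (f * g) = od f + od g := by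
  unfold od
  rw [Units.val_mul, HahnSeries.order_mul f.ne_zero g.ne_zero]

theorem lc_mul (f g : (HahnSeries ℤ K)ˣ) : lc (f * g) = lc f * lc g := by
  ext
  unfold lc
  rw [Units.val_mk0, Units.val_mul, HahnSeries.leadingCoeff_mul, Units.val_mul, Units.val_mk0,
    Units.val_mk0]

/-- the tame symbol on pairs -/
noncomputable def tm (f g : (HahnSeries ℤ K)ˣ) : KQ K 1 :=
  (od f : ℚ) • s1 K (lc g) - (od g : ℚ) • s1 K (lc f)

theorem order_pos_case {f g : HahnSeries ℤ K} (hf : f ≠ 0) (h : f + g = 1) (hp : 0 < f.order) :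
    g.order = 0 ∧ g.leadingCoeff = 1 := by
  have e : g = 1 + -f := by rw [← h]; ring
  have hlt : (1 : HahnSeries ℤ K).orderTop < (-f).orderTop := by
    rw [HahnSeries.orderTop_neg, HahnSeries.orderTop_one]
    have := (HahnSeries.order_eq_orderTop_of_ne_zero hf)
    rw [← this]
    exact_mod_cast hp
  constructor
  · have h1 := HahnSeries.orderTop_add_eq_left hlt
    rw [← e, HahnSeries.orderTop_one] at h1
    have hg : g ≠ 0 := by
      rintro rfl
      rw [HahnSeries.orderTop_zero] at h1
      exact absurd h1 (by simp)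
    have h2 := HahnSeries.order_eq_orderTop_of_ne_zero hg
    rw [h1] at h2
    exact_mod_cast h2
  · have h1 := HahnSeries.leadingCoeff_add_eq_left hlt
    rw [← e, HahnSeries.leadingCoeff_one] at h1
    exact h1

theorem order_neg_case {f g : HahnSeries ℤ K} (hf : f ≠ 0) (h : f + g = 1) (hp : f.order < 0) :
    g.order = f.order ∧ g.leadingCoeff = -f.leadingCoeff := by
  have e : g = -f + 1 := by rw [← h]; ring
  have hlt : (-f).orderTop < (1 : HahnSeries ℤ K).orderTop := by
    rw [HahnSeries.orderTop_neg, HahnSeries.orderTop_one]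
    have := (HahnSeries.order_eq_orderTop_of_ne_zero hf)
    rw [← this]
    exact_mod_cast hp
  constructor
  · have h1 := HahnSeries.orderTop_add_eq_left hlt
    rw [← e, HahnSeries.orderTop_neg] at h1
    have hg : g ≠ 0 := by
      rintro rfl
      rw [HahnSeries.orderTop_zero] at h1
      exact hf (HahnSeries.orderTop_eq_top.1 h1.symm)
    have h2 := HahnSeries.order_eq_orderTop_of_ne_zero hg
    have h3 := HahnSeries.order_eq_orderTop_of_ne_zero hf
    rw [h1, ← h3] at h2
    exact_mod_cast h2
  · have h1 := HahnSeries.leadingCoeff_add_eq_left hlt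
    rw [← e, HahnSeries.leadingCoeff_neg] at h1
    exact h1

theorem tm_steinberg {f g : (HahnSeries ℤ K)ˣ} (h : (f : HahnSeries ℤ K) + g = 1) : tm f g = 0 := by
  unfold tm
  rcases lt_trichotomy (f : HahnSeries ℤ K).order 0 with hf | hf | hf
  · obtain ⟨h1, h2⟩ := order_neg_case f.ne_zero h hf
    have e1 : od g = od f := h1
    have e2 : lc g = -lc f := by
      ext
      rw [Units.val_neg]
      exact h2
    rw [e1, e2, s1_neg, sub_self]
  · rcases lt_trichotomy (g : HahnSeries ℤ K).order 0 with hg | hg | hg
    · obtain ⟨h1, h2⟩ := order_neg_case g.ne_zero (by rw [add_comm]; exact h) hg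
      rw [hf] at h1
      rw [← h1] at hg
      exact absurd hg (lt_irrefl _)
    · have e1 : od f = 0 := hf
      have e2 : od g = 0 := hg
      rw [e1, e2]
      simp
    · obtain ⟨h1, h2⟩ := order_pos_case g.ne_zero (by rw [add_comm]; exact h) hg
      have e1 : od f = 0 := h1
      have e2 : lc f = 1 := Units.ext h2
      rw [e1, e2, s1_one]
      simp
  · obtain ⟨h1, h2⟩ := order_pos_case f.ne_zero h hf
    have e1 : od g = 0 := h1
    have e2 : lc g = 1 := Units.ext h2
    rw [e1, e2, s1_one]
    simp

/-- The tame symbol `K_2(K((t))) ⊗ ℚ → K_1(K) ⊗ ℚ`. -/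
noncomputable def tame (K : Type*) [Field K] : KQ (HahnSeries ℤ K) 2 →ₗ[ℚ] KQ K 1 :=
  KQ.lift (fun a => tm (a 0) (a 1)) (by
    intro a i x y
    have ha : a = ![a 0, a 1] := fin_two_eta a
    rw [ha]
    unfold tm
    fin_cases i
    · simp only [Fin.zero_eta, upd_zero, Matrix.cons_val_zero, Matrix.cons_val_one, od_mul, lc_mul,
        s1_mul, smul_add, Int.cast_add, add_smul]
      abel
    · simp only [Fin.mk_one, upd_one, Matrix.cons_val_zero, Matrix.cons_val_one, od_mul, lc_mul,
        s1_mul, smul_add, Int.cast_add, add_smul]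
      abel) (by
    rintro a ⟨i, j, hij, h⟩
    have hi : i = 0 := by
      ext
      have := i.2
      have := j.2
      have : (i : ℕ) < j := hij
      simp only [Fin.coe_ofNat_eq_mod]
      omega
    have hj : j = 1 := by
      ext
      have := i.2
      have := j.2
      have : (i : ℕ) < j := hij
      simp only [Fin.coe_ofNat_eq_mod]
      omega
    subst hi
    subst hj
    exact tm_steinberg h)

theorem tame_sy (f g : (HahnSeries ℤ K)ˣ) : tame K (sy f g) = tm f g := by
  unfold tame sy
  rw [Pool.Agent.TH826.MK.KQ.lift_symb]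
  rfl

end tame

section val

variable (K : Type*) [Field K]

open Classical in
/-- the discrete valuation of the field of Laurent series -/
noncomputable def vH : Valuation (HahnSeries ℤ K) ℤᵐ⁰ where
  toFun f := if f = 0 then 0 else WithZero.exp (-f.order)
  map_zero' := by simp
  map_one' := by simp
  map_mul' f g := by
    by_cases hf : f = 0
    · simp [hf]
    · by_cases hg : g = 0
      · simp [hg]
      · rw [if_neg hf, if_neg hg, if_neg (mul_ne_zero hf hg), HahnSeries.order_mul hf hg,
          ← WithZero.exp_add]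
        congr 1
        ring
  map_add_le_max' f g := by
    by_cases hf : f = 0
    · simp [hf]
    · by_cases hg : g = 0
      · simp [hg]
      · by_cases hfg : f + g = 0
        · simp [hfg]
        · rw [if_neg hf, if_neg hg, if_neg hfg]
          have h := HahnSeries.min_order_le_order_add hfg
          rcases le_total f.order g.order with h1 | h1
          · rw [min_eq_left h1] at h
            refine le_max_of_le_left ?_
            rw [WithZero.exp_le_exp]
            omega
          · rw [min_eq_right h1] at h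
            refine le_max_of_le_right ?_
            rw [WithZero.exp_le_exp]
            omega

variable {K}

theorem vH_apply {f : HahnSeries ℤ K} (hf : f ≠ 0) : vH K f = WithZero.exp (-f.order) := by
  classical
  show (if f = 0 then 0 else WithZero.exp (-f.order)) = _
  rw [if_neg hf]

theorem vH_eq_one {f : (HahnSeries ℤ K)ˣ} (h : vH K (f : HahnSeries ℤ K) = 1) : od f = 0 := by
  rw [vH_apply f.ne_zero, ← WithZero.exp_zero, WithZero.exp_inj] at h
  unfold od
  omega

variable {L : Type*} [Field L] (ι : L →+* HahnSeries ℤ K)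

/-- The unit part of the valuation lies in the kernel of the tame symbol. -/
theorem tame_unitPart {z : KQ L 2} (hz : z ∈ unitPart ((vH K).comap ι) 2) :
    tame K (KQ.map 2 ι z) = 0 := by
  have h : unitPart ((vH K).comap ι) 2 ≤ LinearMap.ker ((tame K).comp (KQ.map 2 ι)) := by
    unfold unitPart
    rw [Submodule.span_le]
    rintro z ⟨a, ha, rfl⟩
    show tame K (KQ.map 2 ι (symb a)) = 0
    rw [symb_eq_sy, map_sy, tame_sy]
    unfold tm
    have h0 : od (Units.map (ι : L →* HahnSeries ℤ K) (a 0)) = 0 := vH_eq_one (ha 0)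
    have h1 : od (Units.map (ι : L →* HahnSeries ℤ K) (a 1)) = 0 := vH_eq_one (ha 1)
    rw [h0, h1]
    simp
  exact h hz

end val

end Pool.Agent.X232.CU
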