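import Pool.Agent.X232.CU.Reg
set_option autoImplicit false

/-!
The units of the coordinate ring of the curve `λ ∏_i (x - a_i) ∏_j (y - b_j) = 1`: up to finite
index, they are generated by the constants and the `x - a_i`, `y - b_j`.
-/

namespace Pool.Agent.X232.CU

open Pool.Agent.TH826.MH (CRing fpol fx ux eqn coe_ux prod_eq_one)

variable {K : Type*} [Field K] {r : Fin 2 → ℕ} {lam : K} {a : ∀ k, Fin (r k + 1) → K}

/-- the constants as units of the coordinate ring -/
noncomputable def cu (lam : K) (a : ∀ k, Fin (r k + 1) → K) : Kˣ →* (CRing lam a)ˣ :=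
  Units.map ((fpol lam a).comp MvPolynomial.C : K →* CRing lam a)

theorem coe_cu (c : Kˣ) : (cu lam a c : CRing lam a) = fpol lam a (MvPolynomial.C (c : K)) := rfl

/-- the equation of the curve -/
theorem rel (hl : lam ≠ 0) : cu lam a (Units.mk0 lam hl) *
    ((∏ i, ux lam a 0 i) * ∏ j, ux lam a 1 j) = 1 := by
  ext
  rw [Units.val_mul, Units.val_mul, Units.coe_prod, Units.coe_prod, coe_cu, Units.val_mk0]
  have h := prod_eq_one lam a
  rw [Fin.prod_univ_two] at h
  simp only [coe_ux]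
  exact h

section ord

variable (hl : lam ≠ 0) (ha : ∀ k, Function.Injective (a k)) (k : Fin 2) (i : Fin (r k + 1))

/-- the order as a homomorphism -/
noncomputable def ordH : (CRing lam a)ˣ →* Multiplicative ℤ where
  toFun f := Multiplicative.ofAdd (ord hl ha k i f)
  map_one' := by
    have h := ord_mul hl ha k i 1 1
    rw [mul_one] at h
    have h2 : ord hl ha k i 1 = 0 := by omega
    rw [h2]
    rfl
  map_mul' f g := by rw [ord_mul, ofAdd_add]

theorem ordH_apply (f : (CRing lam a)ˣ) :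
    ord hl ha k i f = Multiplicative.toAdd (ordH hl ha k i f) := rfl

theorem ord_zpow (f : (CRing lam a)ˣ) (m : ℤ) : ord hl ha k i (f ^ m) = m * ord hl ha k i f := by
  rw [ordH_apply, map_zpow, toAdd_zpow, smul_eq_mul]
  rfl

theorem ord_pow (f : (CRing lam a)ˣ) (m : ℕ) : ord hl ha k i (f ^ m) = m * ord hl ha k i f := by
  have := ord_zpow hl ha k i f m
  rwa [zpow_natCast] at this

theorem ord_inv (f : (CRing lam a)ˣ) : ord hl ha k i f⁻¹ = -ord hl ha k i f := by
  rw [ordH_apply, map_inv, toAdd_inv]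
  rfl

theorem ord_prod {ι : Type*} (s : Finset ι) (f : ι → (CRing lam a)ˣ) :
    ord hl ha k i (∏ j ∈ s, f j) = ∑ j ∈ s, ord hl ha k i (f j) := by
  rw [ordH_apply, map_prod, toAdd_prod]
  rfl

theorem ord_cu (c : Kˣ) : ord hl ha k i (cu lam a c) = 0 := by
  show (pl hl ha k i (cu lam a c : CRing lam a)).order = 0
  rw [coe_cu, pl_C, HahnSeries.order_C]

theorem ord_one : ord hl ha k i 1 = 0 := by
  have h := ord_mul hl ha k i 1 1
  rw [mul_one] at h
  omega

theorem ord01 (i : Fin (r 0 + 1)) (j : Fin (r 1 + 1)) : ord hl ha 0 i (ux lam a 1 j) = -1 :=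
  ord_other hl ha 0 i j

theorem ord10 (j : Fin (r 1 + 1)) (i : Fin (r 0 + 1)) : ord hl ha 1 j (ux lam a 0 i) = -1 :=
  ord_other hl ha 1 j i

theorem sum_ord0 (i : Fin (r 0 + 1)) : ord hl ha 0 i (ux lam a 0 i) = r 1 + 1 := by
  have h := congrArg (ord hl ha 0 i) (rel (a := a) hl)
  rw [ord_mul, ord_mul, ord_cu, ord_one, ord_prod, ord_prod,
    Finset.sum_eq_single i (fun j _ hj => ord_self_ne hl ha 0 i j hj)
      (fun h => absurd (Finset.mem_univ i) h)] at h
  simp only [ord01, Finset.sum_const, Finset.card_univ, Fintype.card_fin, nsmul_eq_mul] at h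
  push_cast at h
  linarith

theorem sum_ord1 (j : Fin (r 1 + 1)) : ord hl ha 1 j (ux lam a 1 j) = r 0 + 1 := by
  have h := congrArg (ord hl ha 1 j) (rel (a := a) hl)
  rw [ord_mul, ord_mul, ord_cu, ord_one, ord_prod, ord_prod,
    Finset.sum_eq_single j (fun i _ hi => ord_self_ne hl ha 1 j i hi)
      (fun h => absurd (Finset.mem_univ j) h)] at h
  simp only [ord10, Finset.sum_const, Finset.card_univ, Fintype.card_fin, nsmul_eq_mul] at h
  push_cast at h
  linarith

/-- the order of a product of powers of the generators, first kind of places -/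
theorem ord_gen0 (m : Fin (r 0 + 1) → ℤ) (n : Fin (r 1 + 1) → ℤ) (i : Fin (r 0 + 1)) :
    ord hl ha 0 i ((∏ i, ux lam a 0 i ^ m i) * ∏ j, ux lam a 1 j ^ n j) =
      m i * (r 1 + 1) - ∑ j, n j := by
  rw [ord_mul, ord_prod, ord_prod, Finset.sum_eq_single i]
  · simp only [ord_zpow, sum_ord0, ord01, mul_neg, mul_one, Finset.sum_neg_distrib]
    ring
  · intro j _ hj
    rw [ord_zpow, ord_self_ne hl ha 0 i j hj, mul_zero]
  · intro h
    exact absurd (Finset.mem_univ i) h

/-- the order of a product of powers of the generators, second kind of places -/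
theorem ord_gen1 (m : Fin (r 0 + 1) → ℤ) (n : Fin (r 1 + 1) → ℤ) (j : Fin (r 1 + 1)) :
    ord hl ha 1 j ((∏ i, ux lam a 0 i ^ m i) * ∏ j, ux lam a 1 j ^ n j) =
      n j * (r 0 + 1) - ∑ i, m i := by
  have h : ∑ x, ord hl ha 1 j (ux lam a 1 x ^ n x) = n j * (r 0 + 1) := by
    rw [Finset.sum_eq_single j]
    · rw [ord_zpow, sum_ord1]
    · intro i _ hi
      rw [ord_zpow, ord_self_ne hl ha 1 j i hi, mul_zero]
    · intro h
      exact absurd (Finset.mem_univ j) h
  rw [ord_mul, ord_prod, ord_prod, h]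
  simp only [ord_zpow, ord10, mul_neg, mul_one, Finset.sum_neg_distrib]
  ring

end ord

/-- The units of the coordinate ring. -/
theorem units_thm (hl : lam ≠ 0) (ha : ∀ k, Function.Injective (a k)) (f : (CRing lam a)ˣ) :
    ∃ (N : ℕ) (m : Fin (r 0 + 1) → ℤ) (n : Fin (r 1 + 1) → ℤ) (c : Kˣ), 0 < N ∧
      f ^ N * ((∏ i, ux lam a 0 i ^ m i) * ∏ j, ux lam a 1 j ^ n j) = cu lam a c := by
  classical
  set R : ℕ := r 0 + 1 with hR
  set S : ℕ := r 1 + 1 with hS
  set p : Fin (r 0 + 1) → ℤ := fun i => ord hl ha 0 i f with hp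
  set q : Fin (r 1 + 1) → ℤ := fun j => ord hl ha 1 j f with hq
  set P : ℤ := ∑ i, p i with hP
  set Q : ℤ := ∑ j, q j with hQ
  set m : Fin (r 0 + 1) → ℤ := fun i => R * (P + Q) - R * (R + S) * p i with hm
  set n : Fin (r 1 + 1) → ℤ := fun j => S * (P + Q) + (R * Q - S * P) - S * (R + S) * q j with hn
  set g : (CRing lam a)ˣ := f ^ (R * S * (R + S)) *
    ((∏ i, ux lam a 0 i ^ m i) * ∏ j, ux lam a 1 j ^ n j) with hg
  have hmsum : ∑ i, m i = R * (R * Q - S * P) := by
    have e1 : ∑ i, (R : ℤ) * (R + S) * p i = R * (R + S) * P := by rw [hP, Finset.mul_sum]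
    rw [hm]
    simp only
    rw [Finset.sum_sub_distrib, e1, Finset.sum_const, Finset.card_univ,
      Fintype.card_fin, ← hR, nsmul_eq_mul]
    ring
  have hnsum : ∑ j, n j = 0 := by
    have e1 : ∑ j, (S : ℤ) * (R + S) * q j = S * (R + S) * Q := by rw [hQ, Finset.mul_sum]
    rw [hn]
    simp only
    rw [Finset.sum_sub_distrib, e1, Finset.sum_const, Finset.card_univ,
      Fintype.card_fin, ← hS, nsmul_eq_mul]
    ring
  have hR' : ((r 0 : ℤ) + 1) = R := by rw [hR]; push_cast; ring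
  have hS' : ((r 1 : ℤ) + 1) = S := by rw [hS]; push_cast; ring
  have hord : ∀ k i, ord hl ha k i g = R * S * (P + Q) := by
    intro k
    fin_cases k
    · intro i
      show ord hl ha 0 i g = _
      rw [hg, ord_mul, ord_pow, ord_gen0, hnsum, hS']
      show _ * p i + (m i * S - 0) = _
      rw [hm]
      push_cast
      ring
    · intro j
      show ord hl ha 1 j g = _
      rw [hg, ord_mul, ord_pow, ord_gen1, hmsum, hR']
      show _ * q j + (n j * R - _) = _
      rw [hn]
      push_cast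
      ring
  have hcase : ∀ u : (CRing lam a)ˣ, (∀ k i, 0 ≤ ord hl ha k i u) → ∃ c : Kˣ, u = cu lam a c := by
    intro u hu
    obtain ⟨c, hc⟩ := const_of_order hl ha (u : CRing lam a) hu
    have hc0 : c ≠ 0 := by
      rintro rfl
      have h1 : pl hl ha 0 0 (u : CRing lam a) = 0 := by rw [hc, pl_C, map_zero]
      exact (u.isUnit.map (pl hl ha 0 0)).ne_zero h1
    exact ⟨Units.mk0 c hc0, Units.ext hc⟩
  have hpos : 0 < R * S * (R + S) := by positivity
  rcases le_total 0 ((R : ℤ) * S * (P + Q)) with h | h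
  · obtain ⟨c, hc⟩ := hcase g fun k i => by rw [hord]; exact h
    exact ⟨_, m, n, c, hpos, hc⟩
  · obtain ⟨c, hc⟩ := hcase g⁻¹ fun k i => by rw [ord_inv, hord]; omega
    refine ⟨_, m, n, c⁻¹, hpos, ?_⟩
    rw [map_inv, ← hc, inv_inv]

end Pool.Agent.X232.CU
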